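import Pool.Agent.TH492.Level

set_option autoImplicit false
set_option linter.unusedSectionVars false

namespace Pool.Agent.TH492

open Finset

/-! ### polynomial bounds -/

/-- `f` is bounded by a polynomial of degree `d`. -/
def PB (d : ℕ) (f : ℕ → ℕ) : Prop := ∃ A, ∀ Q, 1 ≤ Q → f Q ≤ A * Q ^ d

theorem PB.const (a : ℕ) : PB 0 (fun _ => a) := ⟨a, fun Q _ => by simp⟩

theorem PB.id : PB 1 (fun Q => Q) := ⟨1, fun Q _ => by simp⟩

theorem PB.mono {d d' : ℕ} {f : ℕ → ℕ} (h : PB d f) (hd : d ≤ d') : PB d' f := by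
  obtain ⟨A, hA⟩ := h
  exact ⟨A, fun Q hQ => (hA Q hQ).trans (Nat.mul_le_mul_left _ (Nat.pow_le_pow_right hQ hd))⟩

theorem PB.le {d : ℕ} {f g : ℕ → ℕ} (h : PB d g) (hfg : ∀ Q, 1 ≤ Q → f Q ≤ g Q) : PB d f := by
  obtain ⟨A, hA⟩ := h
  exact ⟨A, fun Q hQ => (hfg Q hQ).trans (hA Q hQ)⟩

theorem PB.add {d : ℕ} {f g : ℕ → ℕ} (h : PB d f) (h' : PB d g) : PB d (fun Q => f Q + g Q) := by
  obtain ⟨A, hA⟩ := h
  obtain ⟨A', hA'⟩ := h'
  refine ⟨A + A', fun Q hQ => ?_⟩
  have := hA Q hQ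
  have := hA' Q hQ
  calc f Q + g Q ≤ A * Q ^ d + A' * Q ^ d := by omega
    _ = _ := by ring

theorem PB.mul {d d' : ℕ} {f g : ℕ → ℕ} (h : PB d f) (h' : PB d' g) :
    PB (d + d') (fun Q => f Q * g Q) := by
  obtain ⟨A, hA⟩ := h
  obtain ⟨A', hA'⟩ := h'
  refine ⟨A * A', fun Q hQ => ?_⟩
  calc f Q * g Q ≤ (A * Q ^ d) * (A' * Q ^ d') := Nat.mul_le_mul (hA Q hQ) (hA' Q hQ)
    _ = _ := by ring

theorem PB.pow {d : ℕ} {f : ℕ → ℕ} (h : PB d f) (k : ℕ) : PB (d * k) (fun Q => f Q ^ k) := by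
  obtain ⟨A, hA⟩ := h
  refine ⟨A ^ k, fun Q hQ => ?_⟩
  calc f Q ^ k ≤ (A * Q ^ d) ^ k := Nat.pow_le_pow_left (hA Q hQ) k
    _ = _ := by rw [mul_pow, ← pow_mul]

theorem PB.event {d : ℕ} {f : ℕ → ℕ} (h : PB d f) : ∃ Q0, ∀ Q, Q0 ≤ Q → f Q ≤ Q ^ (d + 1) := by
  obtain ⟨A, hA⟩ := h
  refine ⟨A + 1, fun Q hQ => ?_⟩
  calc f Q ≤ A * Q ^ d := hA Q (by omega)
    _ ≤ Q * Q ^ d := Nat.mul_le_mul_right _ (by omega)
    _ = _ := by ring

/-! ### the parameters -/

section par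

variable (c0 k0 N κc : ℕ)

def pF (Q : ℕ) : ℕ := c0 * (3 * (5 ^ N * Q) + 1) ^ k0
def mF (Q : ℕ) : ℕ := 4 * pF c0 k0 N Q * κc
def DF (Q : ℕ) : ℕ := 8 * Q * (2 * pF c0 k0 N Q + 2)
def nF (Q : ℕ) : ℕ := DF c0 k0 N Q ^ 2 * (4 * pF c0 k0 N Q + 6)
def KF (Q : ℕ) : ℕ := 2048 * DF c0 k0 N Q ^ 4 * nF c0 k0 N Q ^ 5 * (5 ^ N * Q) ^ 2
def BF (Q : ℕ) : ℕ :=
  1 + KF c0 k0 N Q * (3 * (5 ^ N * Q) + 1) + mF c0 k0 N κc Q * (5 ^ N * Q)
def sF (Q : ℕ) : ℕ :=
  1 + 2 * (512 * DF c0 k0 N Q ^ 4 * nF c0 k0 N Q ^ 4) + 2 * (mF c0 k0 N κc Q * BF c0 k0 N κc Q) +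
    2 * DF c0 k0 N Q * (2 * pF c0 k0 N Q + 2) ^ 2
def TF (Q : ℕ) : ℕ :=
  (N * Nat.size (Q ^ N)) * (4 * Q * (2 * pF c0 k0 N Q + 2) * BF c0 k0 N κc Q)

theorem RF_pb : PB 1 (fun Q => 5 ^ N * Q) := by
  simpa using (PB.const (5 ^ N)).mul PB.id

theorem R3_pb : PB 1 (fun Q => 3 * (5 ^ N * Q) + 1) := by
  have h := ((PB.const 3).mul (RF_pb N)).add ((PB.const 1).mono (show 0 ≤ 0 + 1 by omega))
  simpa using h

theorem pF_pb : PB k0 (pF c0 k0 N) := by
  have h := (PB.const c0).mul ((R3_pb N).pow k0)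
  simp only [zero_add, one_mul] at h
  exact h

theorem p2_pb : PB k0 (fun Q => 2 * pF c0 k0 N Q + 2) := by
  have h := ((PB.const 2).mul (pF_pb c0 k0 N)).add ((PB.const 2).mono (Nat.zero_le (0 + k0)))
  simpa using h

theorem p4_pb : PB k0 (fun Q => 4 * pF c0 k0 N Q + 6) := by
  have h := ((PB.const 4).mul (pF_pb c0 k0 N)).add ((PB.const 6).mono (Nat.zero_le (0 + k0)))
  simpa using h

theorem mF_pb : PB k0 (mF c0 k0 N κc) := by
  have h := ((PB.const 4).mul (pF_pb c0 k0 N)).mul (PB.const κc)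
  simp only [zero_add, add_zero] at h
  exact h

theorem DF_pb : PB (1 + k0) (DF c0 k0 N) := by
  have h := ((PB.const 8).mul PB.id).mul (p2_pb c0 k0 N)
  simp only [zero_add] at h
  exact h

theorem nF_pb : PB (3 * k0 + 2) (nF c0 k0 N) := by
  have h := ((DF_pb c0 k0 N).pow 2).mul (p4_pb c0 k0 N)
  exact h.mono (by omega)

theorem KF_pb : PB (19 * k0 + 16) (KF c0 k0 N) := by
  have h := (((PB.const 2048).mul ((DF_pb c0 k0 N).pow 4)).mul ((nF_pb c0 k0 N).pow 5)).mul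
    ((RF_pb N).pow 2)
  exact h.mono (by omega)

theorem BF_pb : PB (19 * k0 + 17) (BF c0 k0 N κc) := by
  have h1 : PB (19 * k0 + 17) (fun Q => KF c0 k0 N Q * (3 * (5 ^ N * Q) + 1)) :=
    ((KF_pb c0 k0 N).mul (R3_pb N)).mono (by omega)
  have h2 : PB (19 * k0 + 17) (fun Q => mF c0 k0 N κc Q * (5 ^ N * Q)) :=
    ((mF_pb c0 k0 N κc).mul (RF_pb N)).mono (by omega)
  exact (((PB.const 1).mono (by omega)).add h1).add h2

theorem sF_pb : PB (20 * k0 + 19) (sF c0 k0 N κc) := by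
  have h1 : PB (20 * k0 + 19)
      (fun Q => 2 * (512 * DF c0 k0 N Q ^ 4 * nF c0 k0 N Q ^ 4)) :=
    ((PB.const 2).mul (((PB.const 512).mul ((DF_pb c0 k0 N).pow 4)).mul
      ((nF_pb c0 k0 N).pow 4))).mono (by omega)
  have h2 : PB (20 * k0 + 19) (fun Q => 2 * (mF c0 k0 N κc Q * BF c0 k0 N κc Q)) :=
    ((PB.const 2).mul ((mF_pb c0 k0 N κc).mul (BF_pb c0 k0 N κc))).mono (by omega)
  have h3 : PB (20 * k0 + 19) (fun Q => 2 * DF c0 k0 N Q * (2 * pF c0 k0 N Q + 2) ^ 2) :=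
    (((PB.const 2).mul (DF_pb c0 k0 N)).mul ((p2_pb c0 k0 N).pow 2)).mono (by omega)
  exact ((((PB.const 1).mono (by omega)).add h1).add h2).add h3

theorem size_le (hN : 1 ≤ N) (Q : ℕ) : Nat.size (Q ^ N) ≤ N * Q := by
  rw [Nat.size_le, mul_comm, pow_mul]
  exact Nat.pow_lt_pow_left Nat.lt_two_pow_self (by omega)

theorem TF_pb (hN : 1 ≤ N) : PB (20 * k0 + 19) (TF c0 k0 N κc) := by
  have h1 : PB 1 (fun Q => N * Nat.size (Q ^ N)) := by
    have h : PB 1 (fun Q => N * (N * Q)) := by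
      simpa using (PB.const N).mul ((PB.const N).mul PB.id)
    exact h.le (fun Q _ => Nat.mul_le_mul_left _ (size_le N hN Q))
  have h2 := h1.mul ((((PB.const 4).mul PB.id).mul (p2_pb c0 k0 N)).mul (BF_pb c0 k0 N κc))
  exact h2.mono (by omega)

end par

universe u

theorem levels (c0 k0 : ℕ) (hc0 : 1 ≤ c0) : ∃ e c q0 : ℕ, 2 * e + 1 ≤ c ∧
    ∀ (V : Type) [Fintype V] [DecidableEq V] (G : SimpleGraph V),
      (∀ r, Dens G r (c0 * (r + 1) ^ k0)) → ∀ q, q0 ≤ q → Hyp G e c (q ^ 2) → Hyp G e c q := by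
  obtain ⟨e, he⟩ : ∃ e, e = 19 * k0 + 18 := ⟨_, rfl⟩
  obtain ⟨eM, heM⟩ : ∃ eM, eM = 20 * k0 + 20 := ⟨_, rfl⟩
  obtain ⟨c, hc⟩ : ∃ c, c = 2 * eM + 2 * e := ⟨_, rfl⟩
  obtain ⟨N, hN⟩ : ∃ N, N = c + 1 := ⟨_, rfl⟩
  obtain ⟨κ, hκ⟩ : ∃ κ, κ = 6 * 5 ^ N + 2 := ⟨_, rfl⟩
  have hN1 : 1 ≤ N := by omega
  -- eventual inequalities
  have h1 : PB (19 * k0 + 17) (fun Q => 2 * (1 + BF c0 k0 N (κ ^ c) Q * (4 * κ ^ c))) := by
    have := (PB.const 2).mul (((PB.const 1).mono (Nat.zero_le _)).add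
      ((BF_pb c0 k0 N (κ ^ c)).mul (PB.const (4 * κ ^ c))))
    exact this.mono (by omega)
  have h2 : PB (19 * k0 + 17 + c)
      (fun Q => (1 + BF c0 k0 N (κ ^ c) Q * (4 * κ ^ c)) * (5 ^ N * Q) ^ c) := by
    have := (((PB.const 1).mono (Nat.zero_le _)).add
      ((BF_pb c0 k0 N (κ ^ c)).mul (PB.const (4 * κ ^ c)))).mul ((RF_pb N).pow c)
    exact this.mono (by omega)
  have h3 : PB (20 * k0 + 19)
      (fun Q => sF c0 k0 N (κ ^ c) Q + 2 * TF c0 k0 N (κ ^ c) Q + 1 + BF c0 k0 N (κ ^ c) Q) := by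
    have hT : PB (20 * k0 + 19) (fun Q => 2 * TF c0 k0 N (κ ^ c) Q) :=
      ((PB.const 2).mul (TF_pb c0 k0 N (κ ^ c) hN1)).mono (by omega)
    exact (((sF_pb c0 k0 N (κ ^ c)).add hT).add ((PB.const 1).mono (by omega))).add
      ((BF_pb c0 k0 N (κ ^ c)).mono (by omega))
  obtain ⟨Q1, hQ1⟩ := h1.event
  obtain ⟨Q2, hQ2⟩ := h2.event
  obtain ⟨Q3, hQ3⟩ := h3.event
  refine ⟨e, c, Q1 + Q2 + Q3 + 1, by omega, ?_⟩
  intro V _ _ G hd q hq H
  obtain ⟨Q, hQ⟩ : ∃ Q, Q = q ^ 2 := ⟨_, rfl⟩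
  have hq1 : 1 ≤ q := by omega
  have hqQ : q ≤ Q := by rw [hQ]; exact Nat.le_self_pow (by norm_num) q
  have hQ1' : 1 ≤ Q := by omega
  rw [← hQ] at H
  apply level (p := pF c0 k0 N Q) (D' := DF c0 k0 N Q) (n := nF c0 k0 N Q) (K := KF c0 k0 N Q)
    (m := mF c0 k0 N (κ ^ c) Q) (B := BF c0 k0 N (κ ^ c) Q) (smin := sF c0 k0 N (κ ^ c) Q)
    (T' := TF c0 k0 N (κ ^ c) Q) (κ := κ) (N := N) hQ hq1 hN1 (hd _) _ hκ le_rfl rfl rfl le_rfl
    le_rfl _ _ _ _ rfl _ _ (by omega) _ H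
  · unfold pF
    exact Nat.one_le_iff_ne_zero.mpr (by positivity)
  · unfold sF; omega
  · unfold sF; omega
  · unfold sF; omega
  · unfold sF; omega
  · have := hQ1 Q (by omega)
    rw [he]
    exact this
  · refine (hQ2 Q (by omega)).trans ?_
    rw [← pow_add]
    exact Nat.pow_le_pow_right hQ1' (by omega)
  · calc _ ≤ Q ^ (20 * k0 + 19 + 1) * q ^ (2 * e) := Nat.mul_le_mul_right _ (hQ3 Q (by omega))
      _ = q ^ c := by
        rw [hQ, ← pow_mul, ← pow_add, hc, heM]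

theorem hyp_all {V : Type} [Fintype V] [DecidableEq V] {G : SimpleGraph V} {e c q0 : ℕ}
    (hc : 2 * e + 1 ≤ c) (h : ∀ q, q0 ≤ q → Hyp G e c (q ^ 2) → Hyp G e c q) :
    ∀ q, q0 + 2 ≤ q → Hyp G e c q := by
  intro q
  obtain ⟨M, hM⟩ : ∃ M, M = Fintype.card V - q := ⟨_, rfl⟩
  induction M using Nat.strong_induction_on generalizing q with
  | _ M ih =>
    intro hq
    by_cases hcard : Fintype.card V ≤ q
    · apply gchain_of_between (Finset.subset_univ _)
      intro A _ _ v _ ρ hρ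
      calc (Sight G A ρ v).card * q ^ (2 * e) ≤ q * q ^ (2 * e) :=
            Nat.mul_le_mul_right _ ((Finset.card_le_univ _).trans hcard)
        _ = q ^ (2 * e + 1) := by ring
        _ ≤ q ^ c := Nat.pow_le_pow_right (by omega) hc
        _ ≤ ρ ^ c := Nat.pow_le_pow_left hρ c
    · have hlt : q < q ^ 2 := by nlinarith
      apply h q (by omega)
      exact ih (Fintype.card V - q ^ 2) (by omega) (q ^ 2) rfl (by omega)

/-- an order from a chain. -/
theorem rank_of_chain {V : Type} [Fintype V] [DecidableEq V] {Good : Finset V → Prop}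
    {A : Finset V} (h : GChain Good ∅ A) : (A = ∅ ∨ Good A) ∧ ∃ g : V → ℕ, Set.InjOn g A ∧
      (∀ x ∈ A, g x < A.card) ∧
      ∀ x ∈ A, A.filter (fun y => g y < g x) = ∅ ∨ Good (A.filter (fun y => g y < g x)) := by
  induction h with
  | refl => exact ⟨Or.inl rfl, fun _ => 0, by simp, by simp, by simp⟩
  | @tail A A' _ hstep ih =>
    obtain ⟨hA, g, hg1, hg2, hg3⟩ := ih
    obtain ⟨x, hx, rfl, hgood⟩ := hstep
    refine ⟨Or.inr hgood, Function.update g x A.card, ?_, ?_, ?_⟩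
    · intro y hy z hz hyz
      simp only [Finset.coe_insert, Set.mem_insert_iff, Finset.mem_coe] at hy hz
      by_cases hyx : y = x <;> by_cases hzx : z = x
      · rw [hyx, hzx]
      · subst hyx
        rw [Function.update_self, Function.update_of_ne hzx] at hyz
        have := hg2 z (by tauto)
        omega
      · subst hzx
        rw [Function.update_self, Function.update_of_ne hyx] at hyz
        have := hg2 y (by tauto)
        omega
      · rw [Function.update_of_ne hyx, Function.update_of_ne hzx] at hyz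
        exact hg1 (by simpa using (by tauto : y ∈ A)) (by simpa using (by tauto : z ∈ A)) hyz
    · intro y hy
      rw [Finset.card_insert_of_notMem hx]
      by_cases hyx : y = x
      · rw [hyx, Function.update_self]; omega
      · rw [Function.update_of_ne hyx]
        have := hg2 y (by rw [Finset.mem_insert] at hy; tauto)
        omega
    · intro y hy
      by_cases hyx : y = x
      · subst hyx
        have : (insert y A).filter (fun z => Function.update g y A.card z <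
            Function.update g y A.card y) = A := by
          ext z
          rw [Finset.mem_filter, Finset.mem_insert, Function.update_self]
          constructor
          · rintro ⟨rfl | hz, hlt⟩
            · rw [Function.update_self] at hlt; omega
            · exact hz
          · intro hz
            have hzy : z ≠ y := fun h => hx (h ▸ hz)
            rw [Function.update_of_ne hzy]
            exact ⟨Or.inr hz, hg2 z hz⟩
        rw [this]
        exact hA
      · have hyA : y ∈ A := by rw [Finset.mem_insert] at hy; tauto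
        have : (insert x A).filter (fun z => Function.update g x A.card z <
            Function.update g x A.card y) = A.filter (fun z => g z < g y) := by
          ext z
          rw [Finset.mem_filter, Finset.mem_filter, Finset.mem_insert, Function.update_of_ne hyx]
          have hy2 := hg2 y hyA
          constructor
          · rintro ⟨rfl | hz, hlt⟩
            · rw [Function.update_self] at hlt; omega
            · have hzx : z ≠ x := fun h => hx (h ▸ hz)
              rw [Function.update_of_ne hzx] at hlt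
              exact ⟨hz, hlt⟩
          · rintro ⟨hz, hlt⟩
            have hzx : z ≠ x := fun h => hx (h ▸ hz)
            rw [Function.update_of_ne hzx]
            exact ⟨Or.inr hz, hlt⟩
        rw [this]
        exact hg3 y hyA

theorem sees_of_walk {V : Type} [Fintype V] [DecidableEq V] {G : SimpleGraph V} {A : Finset V}
    {u v : V} (p : G.Walk v u) (hv : v ∉ A) (hu : u ∈ A)
    (h : ∀ w ∈ p.support, w ≠ u → w ∉ A) : Sees G A p.length v u := by
  induction p with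
  | nil => exact absurd hu hv
  | @cons a b d hab p ih =>
    by_cases hbd : b = d
    · subst hbd
      refine ⟨hu, 0, by simp, a, Rch.refl hv, hab⟩
    · have hb : b ∉ A := h b (by simp) hbd
      have h1 := ih hb hu (fun w hw => h w (by simp [hw]))
      have h2 := (Rch.adj hab hv hb).sees h1
      have : (SimpleGraph.Walk.cons hab p).length = 1 + p.length := by
        simp [SimpleGraph.Walk.length_cons, add_comm]
      rw [this]
      exact h2

theorem main :
  ∀ C : (n : ℕ) → SimpleGraph (Fin n) → Prop,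
    (∃ c k : ℕ, ∀ (r n : ℕ) (G : SimpleGraph (Fin n)), C n G →
      ∀ (m : ℕ) (H : SimpleGraph (Fin m)) (B : Fin m → Set (Fin n)),
        (∀ i j, i ≠ j → Disjoint (B i) (B j)) →
        (∀ i, ∃ x ∈ B i, ∀ y ∈ B i, ∃ p : G.Walk x y, p.length ≤ r ∧ ∀ w ∈ p.support, w ∈ B i) →
        (∀ i j, H.Adj i j → ∃ a ∈ B i, ∃ b ∈ B j, G.Adj a b) →
        H.edgeSet.ncard ≤ c * (r + 1) ^ k * m) →
    ∃ d : ℕ, 0 < d ∧ ∃ c : ℕ, ∀ r : ℕ, 1 ≤ r → ∀ (n : ℕ) (G : SimpleGraph (Fin n)), C n G →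
      ∃ σ : Equiv.Perm (Fin n), ∀ v : Fin n,
        {u : Fin n | σ u < σ v ∧ ∃ p : G.Walk u v, p.length ≤ r ∧
            ∀ w ∈ p.support, w ≠ u → w ≠ v → σ v < σ w}.ncard ≤ c * r ^ d := by
  intro C ⟨c1, k, hC⟩
  obtain ⟨e, c, q0, hec, hlev⟩ := levels (c1 + 1) k (by omega)
  refine ⟨c, by omega, (q0 + 2) ^ c, ?_⟩
  intro r hr n G hG
  have hd : ∀ r, Dens G r ((c1 + 1) * (r + 1) ^ k) := by
    intro r m H B h1 h2 h3
    refine (hC r n G hG m H B h1 h2 h3).trans ?_
    gcongr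
    omega
  obtain ⟨q, hq⟩ : ∃ q, q = max r (q0 + 2) := ⟨_, rfl⟩
  have hH : Hyp G e c q := hyp_all hec (hlev (Fin n) G hd) q (by rw [hq]; exact le_max_right _ _)
  obtain ⟨_, g, hg1, hg2, hg3⟩ := rank_of_chain hH
  have hg2' : ∀ x, g x < n := by
    intro x
    have := hg2 x (Finset.mem_univ x)
    simpa using this
  let f : Fin n → Fin n := fun x => ⟨g x, hg2' x⟩
  have hf : Function.Injective f := by
    intro x y hxy
    apply hg1 (by simp) (by simp)
    simpa [f] using hxy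
  let σ : Equiv.Perm (Fin n) := Equiv.ofBijective f (Finite.injective_iff_bijective.1 hf)
  refine ⟨σ, fun v => ?_⟩
  have hσ : ∀ x y, σ x < σ y ↔ g x < g y := by
    intro x y
    simp [σ, f, Equiv.ofBijective_apply, Fin.lt_def]
  set A : Finset (Fin n) := univ.filter (fun y => g y < g v) with hA
  have hvA : v ∉ A := by simp [hA]
  have hsub : {u : Fin n | σ u < σ v ∧ ∃ p : G.Walk u v, p.length ≤ r ∧
      ∀ w ∈ p.support, w ≠ u → w ≠ v → σ v < σ w} ⊆ (Sight G A q v : Set (Fin n)) := by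
    rintro u ⟨huv, p, hp, hw⟩
    rw [Finset.mem_coe, mem_sight]
    have huA : u ∈ A := by
      rw [hA, Finset.mem_filter]
      exact ⟨Finset.mem_univ _, (hσ u v).1 huv⟩
    have h1 := sees_of_walk (G := G) (A := A) p.reverse hvA huA (by
      intro w hwp hwu
      rw [SimpleGraph.Walk.support_reverse, List.mem_reverse] at hwp
      by_cases hwv : w = v
      · rw [hwv]; exact hvA
      · have h2 := (hσ v w).1 (hw w hwp hwu hwv)
        rw [hA, Finset.mem_filter]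
        intro h3
        omega)
    refine h1.mono (Finset.Subset.refl _) huA ?_
    rw [SimpleGraph.Walk.length_reverse]
    exact hp.trans (by rw [hq]; exact le_max_left _ _)
  have hcard : (Sight G A q v).card ≤ q ^ c := by
    rcases hg3 v (Finset.mem_univ v) with h0 | hgood
    · have : A = ∅ := h0
      rw [this, sight_empty]
      simp
    · have h4 := hgood v hvA q le_rfl
      have hq1 : 1 ≤ q := by rw [hq]; exact hr.trans (le_max_left _ _)
      calc (Sight G A q v).card = (Sight G A q v).card * 1 := (mul_one _).symm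
        _ ≤ (Sight G A q v).card * q ^ (2 * e) :=
          Nat.mul_le_mul_left _ (Nat.one_le_pow _ _ hq1)
        _ ≤ q ^ c := h4
  calc _ ≤ ((Sight G A q v : Set (Fin n))).ncard := Set.ncard_le_ncard hsub (Finset.finite_toSet _)
    _ = (Sight G A q v).card := Set.ncard_coe_finset _
    _ ≤ q ^ c := hcard
    _ ≤ ((q0 + 2) * r) ^ c := by
        apply Nat.pow_le_pow_left
        rw [hq]
        apply max_le
        · exact Nat.le_mul_of_pos_left _ (by omega)
        · exact Nat.le_mul_of_pos_right _ (by omega)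
    _ = (q0 + 2) ^ c * r ^ c := mul_pow _ _ _

end Pool.Agent.TH492
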