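import Mathlib

set_option autoImplicit false

/-!
Definitions for the comparison of expansion and generalised colouring numbers.
-/

namespace Pool.Agent.TH492.Col

/-- `H` is a depth `r` minor of `G`: pairwise disjoint branch sets, each containing a vertex from
which all of its vertices are reached by walks of length `≤ r` inside the branch set, and every
edge of `H` is realised by an edge of `G`. -/
def IsDepthMinor {n m : ℕ} (r : ℕ) (G : SimpleGraph (Fin n)) (H : SimpleGraph (Fin m)) : Prop :=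
  ∃ B : Fin m → Set (Fin n),
    (∀ i j, i ≠ j → Disjoint (B i) (B j)) ∧
    (∀ i, ∃ x ∈ B i, ∀ y ∈ B i, ∃ p : G.Walk x y, p.length ≤ r ∧ ∀ w ∈ p.support, w ∈ B i) ∧
    (∀ i j, H.Adj i j → ∃ a ∈ B i, ∃ b ∈ B j, G.Adj a b)

/-- the vertices strongly `r`-reachable from `u` in the order `σ`. -/
def Strong {n : ℕ} (G : SimpleGraph (Fin n)) (σ : Equiv.Perm (Fin n)) (r : ℕ) (u : Fin n) :
    Set (Fin n) :=
  {v | σ v ≤ σ u ∧ ∃ p : G.Walk u v, p.IsPath ∧ p.length ≤ r ∧
    ∀ w ∈ p.support, w ≠ u → w ≠ v → σ u < σ w}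

/-- the vertices weakly `r`-reachable from `u` in the order `σ`. -/
def Weak {n : ℕ} (G : SimpleGraph (Fin n)) (σ : Equiv.Perm (Fin n)) (r : ℕ) (u : Fin n) :
    Set (Fin n) :=
  {v | ∃ p : G.Walk u v, p.IsPath ∧ p.length ≤ r ∧ ∀ w ∈ p.support, σ v ≤ σ w}

/-- the strong `r`-colouring number. -/
noncomputable def col {n : ℕ} (r : ℕ) (G : SimpleGraph (Fin n)) : ℕ :=
  sInf {k | ∃ σ : Equiv.Perm (Fin n), ∀ u, (Strong G σ r u).ncard ≤ k}

/-- the weak `r`-colouring number. -/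
noncomputable def wcol {n : ℕ} (r : ℕ) (G : SimpleGraph (Fin n)) : ℕ :=
  sInf {k | ∃ σ : Equiv.Perm (Fin n), ∀ u, (Weak G σ r u).ncard ≤ k}

/-- a class of finite graphs is monotone if it is closed under taking subgraphs. -/
def Monotone (C : (n : ℕ) → SimpleGraph (Fin n) → Prop) : Prop :=
  ∀ (n m : ℕ) (G : SimpleGraph (Fin n)) (H : SimpleGraph (Fin m)) (f : H →g G),
    Function.Injective f → C n G → C m H

/-- condition 1: polynomial expansion. -/
def PolyExpansion (C : (n : ℕ) → SimpleGraph (Fin n) → Prop) : Prop :=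
  ∃ P : Polynomial ℝ, ∀ (r n : ℕ) (G : SimpleGraph (Fin n)), C n G →
    ∀ (m : ℕ) (H : SimpleGraph (Fin m)), IsDepthMinor r G H →
      (H.edgeSet.ncard : ℝ) ≤ P.eval (r : ℝ) * m

/-- condition 2: polynomial strong colouring numbers. -/
def PolyCol (C : (n : ℕ) → SimpleGraph (Fin n) → Prop) : Prop :=
  ∃ c K : ℝ, ∀ (r n : ℕ) (G : SimpleGraph (Fin n)), 1 ≤ r → C n G →
    (col r G : ℝ) ≤ K * (r : ℝ) ^ c

/-- condition 3: polynomial weak colouring numbers. -/
def PolyWcol (C : (n : ℕ) → SimpleGraph (Fin n) → Prop) : Prop :=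
  ∃ c K : ℝ, ∀ (r n : ℕ) (G : SimpleGraph (Fin n)), 1 ≤ r → C n G →
    (wcol r G : ℝ) ≤ K * (r : ℝ) ^ c

/-- every graph of the class has ONE order witnessing polynomial strong colouring numbers for all
radii at once. -/
def UniformPolyCol (C : (n : ℕ) → SimpleGraph (Fin n) → Prop) : Prop :=
  ∃ c K : ℝ, ∀ (n : ℕ) (G : SimpleGraph (Fin n)), C n G → ∃ σ : Equiv.Perm (Fin n),
    ∀ (r : ℕ), 1 ≤ r → ∀ u, ((Strong G σ r u).ncard : ℝ) ≤ K * (r : ℝ) ^ c

end Pool.Agent.TH492.Col
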