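import Mathlib

set_option autoImplicit false
set_option linter.unusedSectionVars false

/-!
Polynomial expansion implies polynomial strong colouring numbers: basic definitions.
-/

namespace Pool.Agent.TH492

open Finset

universe u

variable {V : Type u} [Fintype V] [DecidableEq V]

/-- there is a walk of length `≤ k` from `u` to `v` all of whose vertices avoid `L`. -/
def Rch (G : SimpleGraph V) (L : Finset V) (k : ℕ) (u v : V) : Prop :=
  ∃ p : G.Walk u v, p.length ≤ k ∧ ∀ w ∈ p.support, w ∉ L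

/-- `v` sees the vertex `u ∈ L` along a walk of length `≤ k` all of whose vertices but `u` avoid `L`. -/
def Sees (G : SimpleGraph V) (L : Finset V) (k : ℕ) (v u : V) : Prop :=
  u ∈ L ∧ ∃ j, j < k ∧ ∃ z, Rch G L j v z ∧ G.Adj z u

open Classical in
/-- the set of vertices of `L` seen from `v` within `k` steps. -/
noncomputable def Sight (G : SimpleGraph V) (L : Finset V) (k : ℕ) (v : V) : Finset V :=
  univ.filter (Sees G L k v)

/-- every depth `r` minor of `G` has at most `p` edges per vertex. -/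
def Dens (G : SimpleGraph V) (r p : ℕ) : Prop :=
  ∀ (m : ℕ) (H : SimpleGraph (Fin m)) (B : Fin m → Set V),
    (∀ i j, i ≠ j → Disjoint (B i) (B j)) →
    (∀ i, ∃ x ∈ B i, ∀ y ∈ B i, ∃ p : G.Walk x y, p.length ≤ r ∧ ∀ w ∈ p.support, w ∈ B i) →
    (∀ i j, H.Adj i j → ∃ a ∈ B i, ∃ b ∈ B j, G.Adj a b) →
    H.edgeSet.ncard ≤ p * m

/-- a nonempty connected vertex set of radius `≤ r` (measured inside the set). -/
def Blob (G : SimpleGraph V) (r : ℕ) (T : Finset V) : Prop :=
  ∃ x ∈ T, ∀ y ∈ T, ∃ p : G.Walk x y, p.length ≤ r ∧ ∀ w ∈ p.support, w ∈ T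

/-- the set of occupied vertices. -/
def Occ (Y : Finset V) (F : Finset (Finset V)) : Finset V := Y ∪ F.biUnion id

/-- the pieces: the blobs, and the remaining vertices of `Y` as singletons. -/
def Pcs (Y : Finset V) (F : Finset (Finset V)) : Finset (Finset V) :=
  F ∪ (Y \ F.biUnion id).image (fun y => {y})

/-- adjacency between vertex sets. -/
def Touches (G : SimpleGraph V) (T Z : Finset V) : Prop := ∃ a ∈ T, ∃ z ∈ Z, G.Adj a z

open Classical in
/-- invariants of a state `(Y, F)`. -/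
structure Inv (G : SimpleGraph V) (r B m : ℕ) (Y : Finset V) (F : Finset (Finset V)) : Prop where
  disj : ∀ T ∈ F, ∀ T' ∈ F, T ≠ T' → Disjoint T T'
  card : ∀ T ∈ F, T.card ≤ B
  blob : ∀ T ∈ F, Blob G r T
  touch : ∀ T ∈ F, m ≤ ((Pcs Y F).filter (fun Z => Z ≠ T ∧ Touches G T Z)).card

/-- occupied set after `k` steps of a stage. -/
def Lk (L0 : Finset V) (T : ℕ → Finset V) (k : ℕ) : Finset V := L0 ∪ (range k).biUnion T

/-- the sequence of fixes `T 0, T 1, ...` made in a stage. `Lk L0 T k` is the occupied set when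
`T k` is added, `v k` the centre of `T k`, `Sight G (Lk L0 T k) ρ (v k) ∩ S` is the target set. -/
structure FixSeq (G : SimpleGraph V) (S L0 : Finset V) (ρ s D' t : ℕ) (v : ℕ → V)
    (T : ℕ → Finset V) : Prop where
  start : ∀ k < t, v k ∉ Lk L0 T k
  big : ∀ k < t, s < 2 * (Sight G (Lk L0 T k) ρ (v k) ∩ S).card
  dis : ∀ k < t, Disjoint (T k) (Lk L0 T k)
  reg : ∀ k < t, ∀ x ∈ T k, Rch G (Lk L0 T k) (3 * ρ) (v k) x
  prot : ∀ k < t, ∀ c, Rch G (Lk L0 T k) (2 * ρ) (v k) c → c ∉ Lk L0 T (k + 1) →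
    D' * (Sight G (Lk L0 T (k + 1)) ρ c ∩ (Sight G (Lk L0 T k) ρ (v k) ∩ S)).card <
      (Sight G (Lk L0 T k) ρ (v k) ∩ S).card

/-- `GChain Good A A'`: one can go from `A` to `A'` by adding vertices one at a time, all the
sets met after `A` being good. -/
def GChain (Good : Finset V → Prop) : Finset V → Finset V → Prop :=
  Relation.ReflTransGen (fun A A' => ∃ x, x ∉ A ∧ A' = insert x A ∧ Good A')

section basic

variable {G : SimpleGraph V} {L L' : Finset V} {j k : ℕ} {u v w x : V}

theorem Rch.refl (h : v ∉ L) : Rch G L k v v :=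
  ⟨SimpleGraph.Walk.nil, by simp, by simpa using h⟩

theorem Rch.mono (h : Rch G L' k u v) (hL : L ⊆ L') (hk : k ≤ j) : Rch G L j u v := by
  obtain ⟨p, hp, hw⟩ := h
  exact ⟨p, hp.trans hk, fun w hwp hwL => hw w hwp (hL hwL)⟩

theorem Rch.symm (h : Rch G L k u v) : Rch G L k v u := by
  obtain ⟨p, hp, hw⟩ := h
  refine ⟨p.reverse, by simpa using hp, ?_⟩
  intro w hwp
  apply hw
  simpa using hwp

theorem Rch.trans (h : Rch G L j u v) (h' : Rch G L k v w) : Rch G L (j + k) u w := by
  obtain ⟨p, hp, hpw⟩ := h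
  obtain ⟨q, hq, hqw⟩ := h'
  refine ⟨p.append q, by rw [SimpleGraph.Walk.length_append]; omega, ?_⟩
  intro x hx
  rw [SimpleGraph.Walk.mem_support_append_iff] at hx
  rcases hx with hx | hx
  · exact hpw x hx
  · exact hqw x hx

theorem Rch.left (h : Rch G L k u v) : u ∉ L := by
  obtain ⟨p, _, hw⟩ := h
  exact hw u p.start_mem_support

theorem Rch.right (h : Rch G L k u v) : v ∉ L := by
  obtain ⟨p, _, hw⟩ := h
  exact hw v p.end_mem_support

theorem Rch.adj (h : G.Adj u v) (hu : u ∉ L) (hv : v ∉ L) : Rch G L 1 u v := by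
  refine ⟨SimpleGraph.Walk.cons h SimpleGraph.Walk.nil, by simp, ?_⟩
  intro w hw
  simp only [SimpleGraph.Walk.support_cons, SimpleGraph.Walk.support_nil, List.mem_cons,
    List.not_mem_nil, or_false] at hw
  rcases hw with rfl | rfl
  · exact hu
  · exact hv

theorem Rch.step (h : Rch G L k u v) (ha : G.Adj v w) (hw : w ∉ L) : Rch G L (k + 1) u w :=
  h.trans (Rch.adj ha h.right hw)

theorem mem_sight : u ∈ Sight G L k v ↔ Sees G L k v u := by
  classical
  simp [Sight]

theorem Sees.mono (h : Sees G L' k v u) (hL : L ⊆ L') (hu : u ∈ L) (hk : k ≤ j) :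
    Sees G L j v u := by
  obtain ⟨_, i, hi, z, hz, ha⟩ := h
  exact ⟨hu, i, by omega, z, hz.mono hL le_rfl, ha⟩

theorem Rch.sees (h : Rch G L j u v) (h' : Sees G L k v w) : Sees G L (j + k) u w := by
  obtain ⟨hw, i, hi, z, hz, ha⟩ := h'
  exact ⟨hw, j + i, by omega, z, h.trans hz, ha⟩

/-- all the vertices of a walk are reachable inside. -/
theorem rch_of_mem_support {p : G.Walk u v} (hp : ∀ w ∈ p.support, w ∉ L) (hx : x ∈ p.support) :
    Rch G L p.length u x := by
  refine ⟨p.takeUntil x hx, ?_, ?_⟩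
  · exact p.length_takeUntil_le_length hx
  · intro w hw
    exact hp w (p.support_takeUntil_subset_support hx hw)

end basic

end Pool.Agent.TH492
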