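import Mathlib

set_option autoImplicit false

namespace Pool.Agent.TH492.Gad

open Sum

/-- `w` is weakly `l`-reachable from `u` for the order given by the injective rank `f`. -/
def WR {V : Type} (G : SimpleGraph V) (f : V → ℕ) (l : ℕ) (u : V) : Set V :=
  {w | ∃ p : G.Walk u w, p.length ≤ l ∧ ∀ x ∈ p.support, f w ≤ f x}

theorem WR_map {V W : Type} {G : SimpleGraph V} {H : SimpleGraph W} (φ : G →g H) (f : W → ℕ)
    {l : ℕ} {u w : V} (h : w ∈ WR G (f ∘ φ) l u) : φ w ∈ WR H f l (φ u) := by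
  obtain ⟨p, hp, hp2⟩ := h
  refine ⟨p.map φ, by simpa using hp, ?_⟩
  intro x hx
  rw [SimpleGraph.Walk.support_map, List.mem_map] at hx
  obtain ⟨y, hy, rfl⟩ := hx
  exact hp2 y hy

theorem WR_mono {V : Type} {G : SimpleGraph V} {f : V → ℕ} {l l' : ℕ} {u w : V} (hl : l ≤ l')
    (h : w ∈ WR G f l u) : w ∈ WR G f l' u := by
  obtain ⟨p, hp, hp2⟩ := h
  exact ⟨p, hp.trans hl, hp2⟩

/-- the minimum of a walk is weakly reachable from its start -/
theorem WR_min {V : Type} {G : SimpleGraph V} (f : V → ℕ) {l : ℕ} {u w : V} (p : G.Walk u w)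
    (hp : p.length ≤ l) : ∃ y ∈ p.support, y ∈ WR G f l u ∧ f y ≤ f w := by
  classical
  obtain ⟨y, hy, hmin⟩ := Finset.exists_min_image p.support.toFinset f ⟨u, by simp⟩
  rw [List.mem_toFinset] at hy
  refine ⟨y, hy, ⟨p.takeUntil y hy, (p.length_takeUntil_le_length hy).trans hp, ?_⟩, ?_⟩
  · intro x hx
    exact hmin x (List.mem_toFinset.2 (p.support_takeUntil_subset_support hy hx))
  · exact hmin w (by simp)

/-- all the properties of the gadget, with a stronger separation property -/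
structure Gad (s k r : ℕ) (V : Type) (G : SimpleGraph V) (Br : Set V) (g : V → ℕ) : Prop where
  fin : Finite V
  inj : Function.Injective g
  near : ∀ x, ∃ b ∈ Br, ∃ p : G.Walk b x, p.length ≤ s
  cut : ∀ v, ∃ (C : Set V) (T : Finset V), v ∈ C ∧ (∀ x ∈ C, g v ≤ g x) ∧
        (∀ x ∈ C, ∀ y, G.Adj x y → y ∈ C ∨ y ∈ T) ∧ (v ∈ Br → T.card ≤ k) ∧
        (v ∉ Br → T.card ≤ 2 ∧ ∀ x ∈ C, x ∉ Br) ∧ (∀ y ∈ T, g y < g v)
  far : ∀ b ∈ Br, ∃ δ : V → ℕ, δ b = 0 ∧ (∀ x y, G.Adj x y → δ y ≤ δ x + 1) ∧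
        ∀ x, g x < g b → s ≤ δ x
  big : ∀ f : V → ℕ, Function.Injective f →
        ∃ u ∈ Br, (r + k).choose k ≤ (WR G f ((r + 1) * s) u).ncard

theorem gad_base (s k r : ℕ) (h : (r + k).choose k = 1) :
    Gad s k r Unit ⊥ Set.univ (fun _ => 0) where
  fin := inferInstance
  inj := fun _ _ _ => rfl
  near := fun x => ⟨x, trivial, .nil, by simp⟩
  cut := fun v => ⟨{v}, ∅, rfl, fun _ _ => le_rfl, fun x _ y hxy => absurd hxy (by simp),
    fun _ => by simp, fun h => absurd trivial h, fun y hy => absurd hy (by simp)⟩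
  far := fun b _ => ⟨fun _ => 0, rfl, fun _ _ _ => by simp, fun x hx => absurd hx (by simp)⟩
  big := fun f _ => ⟨(), trivial, by
    rw [h, Nat.one_le_iff_ne_zero, ← Nat.pos_iff_ne_zero, Set.ncard_pos (Set.toFinite _)]
    exact ⟨(), .nil, by simp, fun x _ => by simp⟩⟩

section step

variable {VA VB : Type} (BrA : Set VA) (BrB : Set VB) (s N : ℕ)

/-- vertices of a copy -/
abbrev ZZ : Type := VB ⊕ (BrB × Fin (s - 1))

/-- vertices of the new gadget -/
abbrev VV : Type := VA ⊕ ((BrA × Fin N) × ZZ BrB s)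

/-- the edges of `B` with a root `none` attached by subdivided edges -/
inductive RB (GB : SimpleGraph VB) : Option (ZZ BrB s) → Option (ZZ BrB s) → Prop
  | base {x y : VB} : GB.Adj x y → RB GB (some (inl x)) (some (inl y))
  | first (b : BrB) (j : Fin (s - 1)) : j.1 = 0 → RB GB none (some (inr (b, j)))
  | mid (b : BrB) (j j' : Fin (s - 1)) : j'.1 = j.1 + 1 →
      RB GB (some (inr (b, j))) (some (inr (b, j')))
  | last (b : BrB) (j : Fin (s - 1)) : j.1 + 1 = s - 1 → RB GB (some (inr (b, j))) (some (inl b.1))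
  | direct (b : BrB) : s = 1 → RB GB none (some (inl b.1))

/-- the rooted graph -/
def BP (GB : SimpleGraph VB) : SimpleGraph (Option (ZZ BrB s)) := SimpleGraph.fromRel (RB BrB s GB)

variable {BrB s} in
theorem RB.ne {GB : SimpleGraph VB} {x y : Option (ZZ BrB s)} (h : RB BrB s GB x y) : x ≠ y := by
  cases h with
  | base h => simpa using h.ne
  | first b j h => simp
  | mid b j j' h =>
    intro he
    simp only [Option.some.injEq, Sum.inr.injEq, Prod.mk.injEq, true_and] at he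
    rw [he] at h
    omega
  | last b j h => simp
  | direct b h => simp

theorem BP_adj {GB : SimpleGraph VB} {x y : Option (ZZ BrB s)} :
    (BP BrB s GB).Adj x y ↔ RB BrB s GB x y ∨ RB BrB s GB y x := by
  unfold BP
  rw [SimpleGraph.fromRel_adj]
  constructor
  · exact fun h => h.2
  · rintro (h | h)
    · exact ⟨h.ne, Or.inl h⟩
    · exact ⟨h.ne.symm, Or.inr h⟩

/-- `B` inside the rooted graph -/
def homB (GB : SimpleGraph VB) : GB →g BP BrB s GB where
  toFun x := some (inl x)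
  map_rel' h := (BP_adj BrB s).2 (Or.inl (.base h))

/-- a copy of the rooted graph inside the new graph -/
def φ (c : BrA × Fin N) : Option (ZZ BrB s) → VV BrA BrB s N
  | none => inl c.1.1
  | some z => inr (c, z)

theorem φ_inj (c : BrA × Fin N) : Function.Injective (φ BrA BrB s N c) := by
  rintro (_ | z) (_ | z') h
  · rfl
  · simp [φ] at h
  · simp [φ] at h
  · simpa [φ] using h

/-- the edges of the new graph -/
inductive RG (GA : SimpleGraph VA) (GB : SimpleGraph VB) :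
    VV BrA BrB s N → VV BrA BrB s N → Prop
  | base {x y : VA} : GA.Adj x y → RG GA GB (inl x) (inl y)
  | copy (c : BrA × Fin N) {z z' : Option (ZZ BrB s)} : RB BrB s GB z z' →
      RG GA GB (φ BrA BrB s N c z) (φ BrA BrB s N c z')

/-- the new graph -/
def GG (GA : SimpleGraph VA) (GB : SimpleGraph VB) : SimpleGraph (VV BrA BrB s N) :=
  SimpleGraph.fromRel (RG BrA BrB s N GA GB)

variable {BrA BrB s N} in
theorem RG.ne {GA : SimpleGraph VA} {GB : SimpleGraph VB} {x y : VV BrA BrB s N}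
    (h : RG BrA BrB s N GA GB x y) : x ≠ y := by
  cases h with
  | base h => simpa using h.ne
  | copy c h => exact fun he => h.ne (φ_inj _ _ _ _ c he)

theorem GG_adj {GA : SimpleGraph VA} {GB : SimpleGraph VB} {x y : VV BrA BrB s N} :
    (GG BrA BrB s N GA GB).Adj x y ↔ RG BrA BrB s N GA GB x y ∨ RG BrA BrB s N GA GB y x := by
  unfold GG
  rw [SimpleGraph.fromRel_adj]
  constructor
  · exact fun h => h.2
  · rintro (h | h)
    · exact ⟨h.ne, Or.inl h⟩
    · exact ⟨h.ne.symm, Or.inr h⟩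

/-- `A` inside the new graph -/
def homA (GA : SimpleGraph VA) (GB : SimpleGraph VB) : GA →g GG BrA BrB s N GA GB where
  toFun x := inl x
  map_rel' h := (GG_adj BrA BrB s N).2 (Or.inl (.base h))

/-- a copy inside the new graph -/
def homC (GA : SimpleGraph VA) (GB : SimpleGraph VB) (c : BrA × Fin N) :
    BP BrB s GB →g GG BrA BrB s N GA GB where
  toFun := φ BrA BrB s N c
  map_rel' h := by
    rw [GG_adj]
    rcases (BP_adj BrB s).1 h with h | h
    · exact Or.inl (.copy c h)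
    · exact Or.inr (.copy c h)

theorem path_walk (GB : SimpleGraph VB) (b : BrB) (j : ℕ) (hj : j < s - 1) :
    ∃ p : (BP BrB s GB).Walk none (some (inr (b, ⟨j, hj⟩))), p.length = j + 1 := by
  induction j with
  | zero =>
    exact ⟨.cons ((BP_adj BrB s).2 (Or.inl (.first b ⟨0, hj⟩ rfl))) .nil, by simp⟩
  | succ j ih =>
    obtain ⟨p, hp⟩ := ih (by omega)
    refine ⟨p.concat ((BP_adj BrB s).2 (Or.inl (.mid b ⟨j, by omega⟩ ⟨j + 1, hj⟩ rfl))), ?_⟩
    rw [SimpleGraph.Walk.length_concat, hp]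

theorem root_walk (hs : 1 ≤ s) (GB : SimpleGraph VB) (b : BrB) :
    ∃ p : (BP BrB s GB).Walk none (some (inl b.1)), p.length = s := by
  rcases Nat.eq_or_lt_of_le hs with h | h
  · exact ⟨.cons ((BP_adj BrB s).2 (Or.inl (.direct b h.symm))) .nil, by simp [← h]⟩
  · obtain ⟨p, hp⟩ := path_walk BrB s GB b (s - 2) (by omega)
    refine ⟨p.concat ((BP_adj BrB s).2 (Or.inl (.last b ⟨s - 2, by omega⟩ ?_))), ?_⟩
    · show s - 2 + 1 = s - 1
      omega
    · rw [SimpleGraph.Walk.length_concat, hp]; omega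

theorem closed_of {GA : SimpleGraph VA} {GB : SimpleGraph VB} {C : Set (VV BrA BrB s N)}
    {T : Finset (VV BrA BrB s N)}
    (h : ∀ u v, RG BrA BrB s N GA GB u v →
      (u ∈ C → v ∈ C ∨ v ∈ T) ∧ (v ∈ C → u ∈ C ∨ u ∈ T)) :
    ∀ x ∈ C, ∀ y, (GG BrA BrB s N GA GB).Adj x y → y ∈ C ∨ y ∈ T := by
  intro x hx y hxy
  rcases (GG_adj BrA BrB s N).1 hxy with h1 | h1
  · exact (h x y h1).1 hx
  · exact (h y x h1).2 hx

theorem lip_of {GA : SimpleGraph VA} {GB : SimpleGraph VB} {δ : VV BrA BrB s N → ℕ}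
    (h : ∀ u v, RG BrA BrB s N GA GB u v → δ v ≤ δ u + 1 ∧ δ u ≤ δ v + 1) :
    ∀ x y, (GG BrA BrB s N GA GB).Adj x y → δ y ≤ δ x + 1 := by
  intro x y hxy
  rcases (GG_adj BrA BrB s N).1 hxy with h1 | h1
  · exact (h x y h1).1
  · exact (h y x h1).2

theorem enc_inj {L q q' h h' : ℕ} (hh : h < L) (hh' : h' < L) (he : q * L + h = q' * L + h') :
    q = q' ∧ h = h' := by
  have hL : 0 < L := by omega
  have h1 : (h + L * q) / L = (h' + L * q') / L := by
    rw [show h + L * q = q * L + h by ring, show h' + L * q' = q' * L + h' by ring, he]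
  rw [Nat.add_mul_div_left _ _ hL, Nat.add_mul_div_left _ _ hL, Nat.div_eq_of_lt hh,
    Nat.div_eq_of_lt hh', zero_add, zero_add] at h1
  subst h1
  exact ⟨rfl, by omega⟩

/-- rank inside a copy -/
def hh (MB : ℕ) (gB : VB → ℕ) : ZZ BrB s → ℕ
  | inl x => gB x
  | inr (b, j) => MB + (gB b.1 * s + j.1)

/-- the new rank -/
def gg (MA L : ℕ) (gA : VA → ℕ) (h : ZZ BrB s → ℕ) : VV BrA BrB s N → ℕ
  | inl x => gA x
  | inr (c, z) => MA + ((gA c.1.1 * N + c.2.1) * L + h z)

theorem hh_inj {MB : ℕ} {gB : VB → ℕ} (hB : Function.Injective gB) (hM : ∀ x, gB x < MB) :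
    Function.Injective (hh BrB s MB gB) := by
  rintro (x | ⟨b, j⟩) (x' | ⟨b', j'⟩) h
  · simpa using hB h
  · simp only [hh] at h
    have := hM x
    omega
  · simp only [hh] at h
    have := hM x'
    omega
  · simp only [hh] at h
    have hj := j.2
    have hj' := j'.2
    obtain ⟨h1, h2⟩ := enc_inj (L := s) (q := gB b.1) (q' := gB b'.1) (h := j.1) (h' := j'.1)
      (by omega) (by omega) (by omega)
    have e1 : b = b' := Subtype.ext (hB h1)
    have e2 : j = j' := Fin.ext h2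
    rw [e1, e2]

theorem hh_lt {MB : ℕ} {gB : VB → ℕ} (hM : ∀ x, gB x < MB) (z : ZZ BrB s) :
    hh BrB s MB gB z < MB + (MB * s + s) := by
  rcases z with x | ⟨b, j⟩
  · have := hM x
    simp only [hh]; omega
  · simp only [hh]
    have h1 := hM b.1
    have h2 : gB b.1 * s ≤ MB * s := Nat.mul_le_mul_right _ h1.le
    have := j.2
    omega

theorem gg_inj {MA L : ℕ} {gA : VA → ℕ} {h : ZZ BrB s → ℕ} (hA : Function.Injective gA)
    (hM : ∀ x, gA x < MA) (hh : Function.Injective h) (hL : ∀ z, h z < L) :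
    Function.Injective (gg BrA BrB s N MA L gA h) := by
  rintro (x | ⟨⟨a, i⟩, z⟩) (x' | ⟨⟨a', i'⟩, z'⟩) he
  · simpa using hA he
  · simp only [gg] at he
    have := hM x
    omega
  · simp only [gg] at he
    have := hM x'
    omega
  · simp only [gg] at he
    obtain ⟨h1, h2⟩ := enc_inj (q := gA a.1 * N + i.1) (q' := gA a'.1 * N + i'.1)
      (hL z) (hL z') (by omega)
    obtain ⟨h3, h4⟩ := enc_inj i.2 i'.2 h1
    have e1 : a = a' := Subtype.ext (hA h3)
    have e2 : i = i' := Fin.ext h4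
    rw [e1, e2, hh h2]

end step

end Pool.Agent.TH492.Gad
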