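import Pool.Agent.TH492.Gad1

set_option autoImplicit false

namespace Pool.Agent.TH492.Gad

open Sum

section step

variable {VA VB : Type} (BrA : Set VA) (BrB : Set VB) (s N : ℕ)

/-- new branch vertices -/
def BrN : Set (VV BrA BrB s N) := fun v =>
  match v with
  | inl a => a ∈ BrA
  | inr (_, inl b) => b ∈ BrB
  | inr (_, inr _) => False

/-- the cut set of a vertex of `A` -/
def CA (C : Set VA) : Set (VV BrA BrB s N) := fun v =>
  match v with
  | inl y => y ∈ C
  | inr (c, _) => c.1.1 ∈ C

theorem φ_mem_CA (C : Set VA) (c : BrA × Fin N) (z : Option (ZZ BrB s)) :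
    φ BrA BrB s N c z ∈ CA BrA BrB s N C ↔ c.1.1 ∈ C := by
  cases z <;> rfl

/-- the part of the cut set inside a copy -/
def DB (C : Set VB) : Set (ZZ BrB s) := fun z =>
  match z with
  | inl y => y ∈ C
  | inr (b, _) => b.1 ∈ C

/-- a subset of a copy -/
def CC (c₀ : BrA × Fin N) (D : Set (ZZ BrB s)) : Set (VV BrA BrB s N) := fun v =>
  match v with
  | inl _ => False
  | inr (c, z) => c = c₀ ∧ z ∈ D

theorem inl_mem_CC (c₀ : BrA × Fin N) (D : Set (ZZ BrB s)) (x : VA) :
    (inl x : VV BrA BrB s N) ∉ CC BrA BrB s N c₀ D := fun h => h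

theorem none_mem_CC (c₀ c : BrA × Fin N) (D : Set (ZZ BrB s)) :
    φ BrA BrB s N c none ∉ CC BrA BrB s N c₀ D := fun h => h

theorem some_mem_CC (c₀ c : BrA × Fin N) (D : Set (ZZ BrB s)) (z : ZZ BrB s) :
    φ BrA BrB s N c (some z) ∈ CC BrA BrB s N c₀ D ↔ c = c₀ ∧ z ∈ D := Iff.rfl

variable {BrA BrB s N}
variable {GA : SimpleGraph VA} {GB : SimpleGraph VB} {gA : VA → ℕ} {gB : VB → ℕ}

/-- closure for subsets of a copy -/
theorem closed_CC (c₀ : BrA × Fin N) (D : Set (ZZ BrB s)) (T : Finset (VV BrA BrB s N))
    (h : ∀ z z', RB BrB s GB z z' →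
      ((∃ w ∈ D, z = some w) → (∃ w ∈ D, z' = some w) ∨ φ BrA BrB s N c₀ z' ∈ T) ∧
      ((∃ w ∈ D, z' = some w) → (∃ w ∈ D, z = some w) ∨ φ BrA BrB s N c₀ z ∈ T)) :
    ∀ x ∈ CC BrA BrB s N c₀ D, ∀ y, (GG BrA BrB s N GA GB).Adj x y →
      y ∈ CC BrA BrB s N c₀ D ∨ y ∈ T := by
  apply closed_of
  have key : ∀ (c : BrA × Fin N) (z : Option (ZZ BrB s)),
      φ BrA BrB s N c z ∈ CC BrA BrB s N c₀ D ↔ c = c₀ ∧ ∃ w ∈ D, z = some w := by
    intro c z
    cases z with
    | none => simp [none_mem_CC]
    | some z => simp [some_mem_CC]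
  intro u v huv
  cases huv with
  | base h1 => exact ⟨fun h => absurd h (inl_mem_CC _ _ _ _ _ _ _),
      fun h => absurd h (inl_mem_CC _ _ _ _ _ _ _)⟩
  | copy c h1 =>
    rename_i z z'
    rw [key, key]
    obtain ⟨h2, h3⟩ := h z z' h1
    constructor
    · rintro ⟨rfl, hw⟩
      rcases h2 hw with h4 | h4
      · exact Or.inl ⟨rfl, h4⟩
      · exact Or.inr h4
    · rintro ⟨rfl, hw⟩
      rcases h3 hw with h4 | h4
      · exact Or.inl ⟨rfl, h4⟩
      · exact Or.inr h4

theorem exists_bd {V : Type} [Finite V] (g : V → ℕ) : ∃ M, ∀ x, g x < M := by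
  obtain ⟨M, hM⟩ := (Set.finite_range g).bddAbove
  exact ⟨M + 1, fun x => Nat.lt_succ_of_le (hM ⟨x, rfl⟩)⟩

theorem walk_map' {V W : Type} {G : SimpleGraph V} {H : SimpleGraph W} (φ : G →g H) {u v : V}
    {u' v' : W} (p : G.Walk u v) (hu : φ u = u') (hv : φ v = v') :
    ∃ q : H.Walk u' v', q.length = p.length ∧ ∀ x ∈ q.support, ∃ y, φ y = x := by
  subst hu hv
  refine ⟨p.map φ, by simp, ?_⟩
  intro x hx
  rw [SimpleGraph.Walk.support_map, List.mem_map] at hx
  obtain ⟨y, _, rfl⟩ := hx
  exact ⟨y, rfl⟩

theorem gad_step (hs : 1 ≤ s) {k r : ℕ} (A : Gad s (k + 1) r VA GA BrA gA)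
    (B : Gad s k (r + 1) VB GB BrB gB) (hN : N = (r + 1 + (k + 1)).choose (k + 1)) :
    ∃ g, Gad s (k + 1) (r + 1) (VV BrA BrB s N) (GG BrA BrB s N GA GB) (BrN BrA BrB s N) g := by
  classical
  have := A.fin
  have := B.fin
  obtain ⟨MA, hMA⟩ := exists_bd gA
  obtain ⟨MB, hMB⟩ := exists_bd gB
  have hhinj := hh_inj BrB s B.inj hMB
  have hhlt := hh_lt BrB s hMB
  set L := MB + (MB * s + s) with hL
  set h := hh BrB s MB gB with hhdef
  refine ⟨gg BrA BrB s N MA L gA h, ?_⟩
  have hmap : ∀ (c : BrA × Fin N) (z z' : ZZ BrB s), h z ≤ h z' →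
      gg BrA BrB s N MA L gA h (inr (c, z)) ≤ gg BrA BrB s N MA L gA h (inr (c, z')) := by
    intro c z z' hz
    simp only [gg]; omega
  refine ⟨inferInstance, gg_inj BrA BrB s N A.inj hMA hhinj hhlt, ?_, ?_, ?_, ?_⟩
  -- near
  · rintro (x | ⟨c, x | ⟨b, j⟩⟩)
    · obtain ⟨b, hb, p, hp⟩ := A.near x
      obtain ⟨q, hq, _⟩ := walk_map' (homA BrA BrB s N GA GB) p (u' := inl b) (v' := inl x) rfl rfl
      exact ⟨inl b, hb, q, hq.trans_le hp⟩
    · obtain ⟨b, hb, p, hp⟩ := B.near x
      obtain ⟨q, hq, _⟩ := walk_map' ((homC BrA BrB s N GA GB c).comp (homB BrB s GB)) p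
        (u' := inr (c, inl b)) (v' := inr (c, inl x)) rfl rfl
      exact ⟨inr (c, inl b), hb, q, hq.trans_le hp⟩
    · obtain ⟨p, hp⟩ := path_walk BrB s GB b j.1 j.2
      obtain ⟨q, hq, _⟩ := walk_map' (homC BrA BrB s N GA GB c) p
        (u' := inl c.1.1) (v' := inr (c, inr (b, j))) rfl rfl
      refine ⟨inl c.1.1, c.1.2, q, ?_⟩
      rw [hq, hp]
      have := j.2
      omega
  -- cut
  · rintro (x | ⟨c₀, x | ⟨b₀, j₀⟩⟩)
    · obtain ⟨C, T, h1, h2, h3, h4, h5, hTlt⟩ := A.cut x
      refine ⟨CA BrA BrB s N C, T.map ⟨inl, inl_injective⟩, h1, ?_, ?_, ?_, ?_, ?_⟩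
      · rintro (y | ⟨c, z⟩) hy
        · exact h2 y hy
        · have := hMA x
          simp only [gg]; omega
      · apply closed_of
        intro u v huv
        cases huv with
        | base h6 =>
          rename_i a b
          refine ⟨fun ha => ?_, fun hb => ?_⟩
          · rcases h3 a ha b h6 with h7 | h7
            · exact Or.inl h7
            · exact Or.inr (by simpa using h7)
          · rcases h3 b hb a h6.symm with h7 | h7
            · exact Or.inl h7
            · exact Or.inr (by simpa using h7)
        | copy c h6 =>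
          rw [φ_mem_CA, φ_mem_CA]
          exact ⟨fun h => Or.inl h, fun h => Or.inl h⟩
      · intro hx; rw [Finset.card_map]; exact h4 hx
      · intro hx
        obtain ⟨h6, h7⟩ := h5 hx
        refine ⟨by rw [Finset.card_map]; exact h6, ?_⟩
        rintro (y | ⟨c, y | y⟩) hy hy2
        · exact h7 y hy hy2
        · exact h7 c.1.1 hy c.1.2
        · exact hy2
      · intro y hy
        obtain ⟨y', hy', rfl⟩ := Finset.mem_map.1 hy
        exact hTlt y' hy'
    · obtain ⟨C, T, h1, h2, h3, h4, h5, hTlt⟩ := B.cut x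
      refine ⟨CC BrA BrB s N c₀ (DB BrB s C),
        (T.map ⟨fun y => inr (c₀, inl y), fun y y' hyy => by simpa using hyy⟩) ∪
          (if x ∈ BrB then {inl c₀.1.1} else ∅), ⟨rfl, h1⟩, ?_, ?_, ?_, ?_, ?_⟩
      · rintro (y | ⟨c, y | ⟨b, j⟩⟩) hy
        · exact absurd hy (inl_mem_CC _ _ _ _ _ _ _)
        · obtain ⟨rfl, hy⟩ := hy
          exact hmap _ _ _ (h2 y hy)
        · obtain ⟨rfl, hy⟩ := hy
          refine hmap _ _ _ ?_
          have := hMB x
          simp only [hhdef, hh]; omega
      · apply closed_CC
        intro z z' hz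
        cases hz with
        | base h6 =>
          rename_i a b
          refine ⟨?_, ?_⟩
          · rintro ⟨w, hw, hw2⟩
            obtain rfl := Option.some.inj hw2
            rcases h3 a hw b h6 with h7 | h7
            · exact Or.inl ⟨inl b, h7, rfl⟩
            · exact Or.inr (Finset.mem_union_left _ (by simpa [φ] using h7))
          · rintro ⟨w, hw, hw2⟩
            obtain rfl := Option.some.inj hw2
            rcases h3 b hw a h6.symm with h7 | h7
            · exact Or.inl ⟨inl a, h7, rfl⟩
            · exact Or.inr (Finset.mem_union_left _ (by simpa [φ] using h7))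
        | first b j h6 =>
          refine ⟨by rintro ⟨w, _, hw2⟩; simp at hw2, ?_⟩
          rintro ⟨w, hw, hw2⟩
          obtain rfl := Option.some.inj hw2
          right
          have hx : x ∈ BrB := by
            by_contra hx
            exact (h5 hx).2 b.1 hw b.2
          simp [φ, hx]
        | mid b j j' h6 =>
          refine ⟨?_, ?_⟩
          · rintro ⟨w, hw, hw2⟩
            obtain rfl := Option.some.inj hw2
            exact Or.inl ⟨inr (b, j'), hw, rfl⟩
          · rintro ⟨w, hw, hw2⟩
            obtain rfl := Option.some.inj hw2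
            exact Or.inl ⟨inr (b, j), hw, rfl⟩
        | last b j h6 =>
          refine ⟨?_, ?_⟩
          · rintro ⟨w, hw, hw2⟩
            obtain rfl := Option.some.inj hw2
            exact Or.inl ⟨inl b.1, hw, rfl⟩
          · rintro ⟨w, hw, hw2⟩
            obtain rfl := Option.some.inj hw2
            exact Or.inl ⟨inr (b, j), hw, rfl⟩
        | direct b h6 =>
          refine ⟨by rintro ⟨w, _, hw2⟩; simp at hw2, ?_⟩
          rintro ⟨w, hw, hw2⟩
          obtain rfl := Option.some.inj hw2
          right
          have hx : x ∈ BrB := by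
            by_contra hx
            exact (h5 hx).2 b.1 hw b.2
          simp [φ, hx]
      · intro hx
        have hx' : x ∈ BrB := hx
        refine (Finset.card_union_le _ _).trans ?_
        rw [Finset.card_map, if_pos hx', Finset.card_singleton]
        have := h4 hx'
        omega
      · intro hx
        have hx' : x ∉ BrB := hx
        obtain ⟨h6, h7⟩ := h5 hx'
        refine ⟨?_, ?_⟩
        · refine (Finset.card_union_le _ _).trans ?_
          rw [Finset.card_map, if_neg hx', Finset.card_empty]
          omega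
        · rintro (y | ⟨c, y | y⟩) hy hy2
          · exact absurd hy (inl_mem_CC _ _ _ _ _ _ _)
          · exact h7 y hy.2 hy2
          · exact hy2
      · intro y hy
        rcases Finset.mem_union.1 hy with hy | hy
        · obtain ⟨y', hy', rfl⟩ := Finset.mem_map.1 hy
          have := hTlt y' hy'
          simp only [gg, hhdef, hh, Function.Embedding.coeFn_mk]
          omega
        · by_cases hx : x ∈ BrB
          · rw [if_pos hx, Finset.mem_singleton] at hy
            subst hy
            have := hMA c₀.1.1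
            simp only [gg]; omega
          · rw [if_neg hx] at hy
            exact absurd hy (by simp)
    · refine ⟨CC BrA BrB s N c₀ {z | ∃ j, j₀.1 ≤ j.1 ∧ z = inr (b₀, j)},
        {(if hj : j₀.1 = 0 then inl c₀.1.1 else
          inr (c₀, inr (b₀, ⟨j₀.1 - 1, by omega⟩))), inr (c₀, inl b₀.1)}, ⟨rfl, j₀, le_rfl, rfl⟩,
          ?_, ?_, ?_, ?_, ?_⟩
      · rintro (y | ⟨c, z⟩) hy
        · exact absurd hy (inl_mem_CC _ _ _ _ _ _ _)
        · obtain ⟨rfl, j, hj, rfl⟩ := hy
          refine hmap _ _ _ ?_
          simp only [hhdef, hh]; omega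
      · apply closed_CC
        intro z z' hz
        cases hz with
        | base h6 =>
          refine ⟨?_, ?_⟩
          · rintro ⟨w, ⟨j, hj, rfl⟩, hw2⟩
            simp at hw2
          · rintro ⟨w, ⟨j, hj, rfl⟩, hw2⟩
            simp at hw2
        | first b j h6 =>
          refine ⟨by rintro ⟨w, _, hw2⟩; simp at hw2, ?_⟩
          rintro ⟨w, ⟨j', hj, rfl⟩, hw2⟩
          simp only [Option.some.injEq, Sum.inr.injEq, Prod.mk.injEq] at hw2
          obtain ⟨rfl, rfl⟩ := hw2
          right
          have : j₀.1 = 0 := by omega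
          simp [φ, this]
        | mid b j j' h6 =>
          refine ⟨?_, ?_⟩
          · rintro ⟨w, ⟨i, hi, rfl⟩, hw2⟩
            simp only [Option.some.injEq, Sum.inr.injEq, Prod.mk.injEq] at hw2
            obtain ⟨rfl, rfl⟩ := hw2
            exact Or.inl ⟨_, ⟨j', by omega, rfl⟩, rfl⟩
          · rintro ⟨w, ⟨i, hi, rfl⟩, hw2⟩
            simp only [Option.some.injEq, Sum.inr.injEq, Prod.mk.injEq] at hw2
            obtain ⟨rfl, rfl⟩ := hw2
            by_cases h7 : j₀.1 ≤ j.1
            · exact Or.inl ⟨_, ⟨j, h7, rfl⟩, rfl⟩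
            · right
              have h8 : j₀.1 ≠ 0 := by omega
              have h9 : j = ⟨j₀.1 - 1, by omega⟩ := Fin.ext (by simp only; omega)
              rw [dif_neg h8, h9]
              simp [φ]
        | last b j h6 =>
          refine ⟨?_, ?_⟩
          · rintro ⟨w, ⟨i, hi, rfl⟩, hw2⟩
            simp only [Option.some.injEq, Sum.inr.injEq, Prod.mk.injEq] at hw2
            obtain ⟨rfl, rfl⟩ := hw2
            right
            simp [φ]
          · rintro ⟨w, ⟨i, hi, rfl⟩, hw2⟩
            simp at hw2
        | direct b h6 =>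
          refine ⟨by rintro ⟨w, _, hw2⟩; simp at hw2, ?_⟩
          rintro ⟨w, ⟨i, hi, rfl⟩, hw2⟩
          simp at hw2
      · intro hx
        exact absurd hx (fun h => h)
      · intro hx
        refine ⟨Finset.card_le_two, ?_⟩
        rintro (y | ⟨c, z⟩) hy hy2
        · exact absurd hy (inl_mem_CC _ _ _ _ _ _ _)
        · obtain ⟨rfl, j, hj, rfl⟩ := hy
          exact hy2
      · intro y hy
        rcases Finset.mem_insert.1 hy with hy | hy
        · subst hy
          split
          · have := hMA c₀.1.1
            simp only [gg]; omega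
          · simp only [gg, hhdef, hh]; omega
        · rw [Finset.mem_singleton] at hy
          subst hy
          have := hMB b₀.1
          simp only [gg, hhdef, hh]; omega
  -- far
  · rintro (b₀ | ⟨c₀, b₀ | b₀⟩) hb₀
    · obtain ⟨δ, h1, h2, h3⟩ := A.far b₀ hb₀
      refine ⟨fun v => match v with
        | inl x => δ x
        | inr (c, inl x) => δ c.1.1 + s
        | inr (c, inr (b, j)) => δ c.1.1 + (j.1 + 1), h1, ?_, ?_⟩
      · apply lip_of
        intro u v huv
        cases huv with
        | base h6 => exact ⟨h2 _ _ h6, h2 _ _ h6.symm⟩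
        | copy c h6 =>
          cases h6 with
          | base h7 => simp [φ]
          | first b j h7 => simp only [φ]; omega
          | mid b j j' h7 => simp only [φ]; omega
          | last b j h7 => simp only [φ]; omega
          | direct b h7 => simp only [φ]; omega
      · rintro (x | ⟨c, z⟩) hx
        · exact h3 x hx
        · have := hMA b₀
          simp only [gg] at hx; omega
    · have hb : b₀ ∈ BrB := hb₀
      obtain ⟨δ, h1, h2, h3⟩ := B.far b₀ hb
      refine ⟨fun v => match v with
        | inl x => s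
        | inr (c, inl x) => if c = c₀ then min (δ x) s else s
        | inr (c, inr (b, j)) => if c = c₀ then min (min (δ b.1) s + (s - 1 - j.1)) s else s,
        by simp [h1], ?_, ?_⟩
      · apply lip_of
        intro u v huv
        cases huv with
        | base h6 => simp
        | copy c h6 =>
          by_cases hc : c = c₀
          · subst hc
            cases h6 with
            | base h7 =>
              have := h2 _ _ h7
              have := h2 _ _ h7.symm
              simp only [φ, if_true]; omega
            | first b j h7 => simp only [φ, if_true]; omega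
            | mid b j j' h7 => simp only [φ, if_true]; omega
            | last b j h7 => simp only [φ, if_true]; omega
            | direct b h7 => simp only [φ, if_true]; omega
          · cases h6 with
            | base h7 => simp only [φ, if_neg hc]; omega
            | first b j h7 => simp only [φ, if_neg hc]; omega
            | mid b j j' h7 => simp only [φ, if_neg hc]; omega
            | last b j h7 => simp only [φ, if_neg hc]; omega
            | direct b h7 => simp only [φ, if_neg hc]; omega
      · rintro (x | ⟨c, x | ⟨b, j⟩⟩) hx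
        · simp
        · by_cases hc : c = c₀
          · subst hc
            have : gB x < gB b₀ := by
              simp only [gg, hhdef, hh] at hx; omega
            have := h3 x this
            simp only [if_true]; omega
          · simp only [if_neg hc]; omega
        · by_cases hc : c = c₀
          · subst hc
            exfalso
            have := hMB b₀
            simp only [gg, hhdef, hh] at hx; omega
          · simp only [if_neg hc]; omega
    · exact absurd hb₀ (fun h => h)
  -- big
  · intro f hf
    obtain ⟨a, ha, hcard⟩ := A.big (f ∘ homA BrA BrB s N GA GB)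
      (hf.comp inl_injective)
    by_cases hcase : ∃ i : Fin N, ∀ z : ZZ BrB s, f (inl a) < f (inr ((⟨a, ha⟩, i), z))
    · obtain ⟨i, hi⟩ := hcase
      set c : BrA × Fin N := (⟨a, ha⟩, i) with hc
      obtain ⟨u, hu, hcard2⟩ := B.big (fun x => f (inr (c, inl x)))
        (by
          intro x y hxy
          have := hf hxy
          simpa using this)
      refine ⟨inr (c, inl u), hu, ?_⟩
      set S1 : Set (VV BrA BrB s N) := (fun x => inr (c, inl x)) ''
        WR GB (fun x => f (inr (c, inl x))) ((r + 1 + 1) * s) u with hS1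
      set S2 : Set (VV BrA BrB s N) := inl ''
        WR GA (f ∘ homA BrA BrB s N GA GB) ((r + 1) * s) a with hS2
      have e1 : S1.ncard = (WR GB (fun x => f (inr (c, inl x))) ((r + 1 + 1) * s) u).ncard := by
        apply Set.ncard_image_of_injective
        intro x y hxy
        simpa using hxy
      have e2 : S2.ncard = (WR GA (f ∘ homA BrA BrB s N GA GB) ((r + 1) * s) a).ncard :=
        Set.ncard_image_of_injective _ inl_injective
      have hdisj : Disjoint S1 S2 := by
        rw [Set.disjoint_left]
        rintro _ ⟨x, _, rfl⟩ ⟨y, _, hy⟩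
        simp at hy
      have hsub : S1 ∪ S2 ⊆ WR (GG BrA BrB s N GA GB) f ((r + 1 + 1) * s) (inr (c, inl u)) := by
        rintro _ (⟨x, hx, rfl⟩ | ⟨x, hx, rfl⟩)
        · exact WR_map (((homC BrA BrB s N GA GB c)).comp (homB BrB s GB)) f hx
        · obtain ⟨p, hp⟩ := root_walk BrB s hs GB ⟨u, hu⟩
          have hxr : (inl x : VV BrA BrB s N) ∈
              WR (GG BrA BrB s N GA GB) f ((r + 1) * s) (inl a) :=
            WR_map (homA BrA BrB s N GA GB) f hx
          obtain ⟨q, hq, hq2⟩ := hxr
          have hle : f (inl x) ≤ f (inl a) := hq2 (inl a) q.start_mem_support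
          obtain ⟨p', hp', hp2⟩ := walk_map' (homC BrA BrB s N GA GB c) p
            (u' := inl a) (v' := inr (c, inl u)) rfl rfl
          refine ⟨p'.reverse.append q, ?_, ?_⟩
          · rw [SimpleGraph.Walk.length_append, SimpleGraph.Walk.length_reverse, hp', hp]
            have : (r + 1 + 1) * s = s + (r + 1) * s := by ring
            omega
          · intro y hy
            rw [SimpleGraph.Walk.mem_support_append_iff] at hy
            rcases hy with hy | hy
            · rw [SimpleGraph.Walk.support_reverse, List.mem_reverse] at hy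
              obtain ⟨z, rfl⟩ := hp2 y hy
              cases z with
              | none => exact hle
              | some z => exact hle.trans (hi z).le
            · exact hq2 y hy
      calc (r + 1 + (k + 1)).choose (k + 1) = (r + 1 + k).choose k + (r + (k + 1)).choose (k + 1) := by
            rw [show r + 1 + (k + 1) = (r + 1 + k) + 1 by ring, Nat.choose_succ_succ,
              show r + 1 + k = r + (k + 1) by ring]
        _ ≤ S1.ncard + S2.ncard := by rw [e1, e2]; exact add_le_add hcard2 hcard
        _ = (S1 ∪ S2).ncard := (Set.ncard_union_eq hdisj (Set.toFinite _) (Set.toFinite _)).symm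
        _ ≤ _ := Set.ncard_le_ncard hsub (Set.toFinite _)
    · push Not at hcase
      refine ⟨inl a, ha, ?_⟩
      have key : ∀ i : Fin N, ∃ y ∈ WR (GG BrA BrB s N GA GB) f ((r + 1 + 1) * s) (inl a),
          ∃ z, y = inr ((⟨a, ha⟩, i), z) := by
        intro i
        obtain ⟨z, hz⟩ := hcase i
        set c : BrA × Fin N := (⟨a, ha⟩, i) with hc
        have hlt : f (inr (c, z)) < f (inl a) := lt_of_le_of_ne hz (fun he => by
          have := hf he
          simp at this)
        have hw : ∃ p : (BP BrB s GB).Walk none (some z), p.length ≤ (r + 1 + 1) * s := by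
          rcases z with x | ⟨b, j⟩
          · obtain ⟨b, hb, p, hp⟩ := B.near x
            obtain ⟨q, hq⟩ := root_walk BrB s hs GB ⟨b, hb⟩
            obtain ⟨p1, hp1, _⟩ := walk_map' (homB BrB s GB) p
              (u' := some (inl b)) (v' := some (inl x)) rfl rfl
            refine ⟨q.append p1, ?_⟩
            rw [SimpleGraph.Walk.length_append, hp1, hq]
            have : (r + 1 + 1) * s = r * s + 2 * s := by ring
            have h0 : 0 ≤ r * s := Nat.zero_le _
            omega
          · obtain ⟨p, hp⟩ := path_walk BrB s GB b j.1 j.2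
            refine ⟨p, ?_⟩
            have hj := j.2
            have : (r + 1 + 1) * s = (r + 1) * s + s := by ring
            have h0 : 0 ≤ (r + 1) * s := Nat.zero_le _
            omega
        obtain ⟨p, hp⟩ := hw
        obtain ⟨p1, hp1, hp2⟩ := walk_map' (homC BrA BrB s N GA GB c) p
          (u' := inl a) (v' := inr (c, z)) rfl rfl
        obtain ⟨y, hy, hy2, hy3⟩ := WR_min f p1 (hp1.trans_le hp)
        obtain ⟨z', rfl⟩ := hp2 y hy
        refine ⟨_, hy2, ?_⟩
        cases z' with
        | none =>
          exfalso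
          exact absurd (lt_of_le_of_lt hy3 hlt) (lt_irrefl _)
        | some z' => exact ⟨z', rfl⟩
      choose y hy z hz using key
      have hinj : Function.Injective y := by
        intro i i' hii
        rw [hz i, hz i'] at hii
        simp only [Sum.inr.injEq, Prod.mk.injEq, true_and] at hii
        exact hii.1
      have h1 : (Set.range y).ncard = N := by
        rw [← Set.image_univ, Set.ncard_image_of_injective _ hinj, Set.ncard_univ]
        simp
      have h2 : (Set.range y).ncard ≤
          (WR (GG BrA BrB s N GA GB) f ((r + 1 + 1) * s) (inl a)).ncard :=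
        Set.ncard_le_ncard (by rintro _ ⟨i, rfl⟩; exact hy i) (Set.toFinite _)
      rw [h1] at h2
      exact hN.symm.trans_le h2

end step

theorem exists_gad (s : ℕ) (hs : 1 ≤ s) (k : ℕ) : ∀ r : ℕ,
    ∃ (V : Type) (G : SimpleGraph V) (Br : Set V) (g : V → ℕ), Gad s k r V G Br g := by
  induction k with
  | zero => exact fun r => ⟨_, _, _, _, gad_base s 0 r (by simp)⟩
  | succ k ihk =>
    intro r
    induction r with
    | zero => exact ⟨_, _, _, _, gad_base s (k + 1) 0 (by simp)⟩
    | succ r ihr =>
      obtain ⟨VA, GA, BrA, gA, A⟩ := ihr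
      obtain ⟨VB, GB, BrB, gB, B⟩ := ihk (r + 1)
      obtain ⟨g, hg⟩ := gad_step hs A B rfl
      exact ⟨_, _, _, g, hg⟩

/-- `s`-subdivided graphs of treewidth at most `k` with large weak colouring numbers. -/
theorem gadget (s k r : ℕ) (hs : 1 ≤ s) :
    ∃ (V : Type) (_ : Fintype V) (G : SimpleGraph V) (Br : Set V) (g : V → ℕ),
      Function.Injective g ∧
      (∀ x, ∃ b ∈ Br, ∃ p : G.Walk b x, p.length ≤ s) ∧
      (∀ v, ∃ (C : Set V) (T : Finset V), v ∈ C ∧ (∀ x ∈ C, g v ≤ g x) ∧ (∀ y ∈ T, g y < g v) ∧
        (∀ x ∈ C, ∀ y, G.Adj x y → y ∈ C ∨ y ∈ T) ∧ (v ∈ Br → T.card ≤ k) ∧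
        (v ∉ Br → T.card ≤ 2)) ∧
      (∀ b ∈ Br, ∃ δ : V → ℕ, δ b = 0 ∧ (∀ x y, G.Adj x y → δ y ≤ δ x + 1) ∧
        ∀ x, g x < g b → s ≤ δ x) ∧
      (∀ f : V → ℕ, Function.Injective f →
        ∃ u ∈ Br, (r + k).choose k ≤ (WR G f ((r + 1) * s) u).ncard) := by
  obtain ⟨V, G, Br, g, h⟩ := exists_gad s hs k r
  have := h.fin
  refine ⟨V, Fintype.ofFinite V, G, Br, g, h.inj, h.near, ?_, h.far, h.big⟩
  intro v
  obtain ⟨C, T, h1, h2, h3, h4, h5, h6⟩ := h.cut v
  exact ⟨C, T, h1, h2, h6, h3, h4, fun hv => (h5 hv).1⟩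

end Pool.Agent.TH492.Gad
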