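import Pool.Agent.TH492.Reduce

set_option autoImplicit false
set_option linter.unusedSectionVars false

namespace Pool.Agent.TH492

open Finset

universe u
variable {V : Type u} [Fintype V] [DecidableEq V]

/-- the set `A` is good at all scales `≥ q`. -/
def GoodQ (G : SimpleGraph V) (e c q : ℕ) (A : Finset V) : Prop :=
  ∀ v, v ∉ A → ∀ ρ, q ≤ ρ → (Sight G A ρ v).card * q ^ (2 * e) ≤ ρ ^ c

/-- there is an order all of whose initial segments are good at all scales `≥ q`. -/
def Hyp (G : SimpleGraph V) (e c q : ℕ) : Prop := GChain (GoodQ G e c q) ∅ univ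

theorem sight_empty {G : SimpleGraph V} {k : ℕ} {v : V} : Sight G ∅ k v = ∅ := by
  rw [← Finset.subset_empty]
  exact sight_sub

theorem card_sight_le_add {G : SimpleGraph V} {L A : Finset V} {k b : ℕ} {v : V} (hL : L ⊆ A)
    (hA : A.card ≤ L.card + b) : (Sight G A k v).card ≤ (Sight G L k v).card + b := by
  have hsub : Sight G A k v ⊆ Sight G L k v ∪ (A \ L) := by
    intro x hx
    rw [Finset.mem_union, Finset.mem_sdiff]
    by_cases hxL : x ∈ L
    · left
      exact mem_sight.2 ((mem_sight.1 hx).mono hL hxL le_rfl)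
    · right
      exact ⟨sight_sub hx, hxL⟩
  have h1 : (A \ L).card ≤ b := by
    rw [Finset.card_sdiff_of_subset hL]; omega
  calc _ ≤ _ := Finset.card_le_card hsub
    _ ≤ _ := Finset.card_union_le _ _
    _ ≤ _ := by omega

theorem Inv.insertY {G : SimpleGraph V} {r B m : ℕ} {Y : Finset V} {F : Finset (Finset V)}
    (h : Inv G r B m Y F) (y : V) : Inv G r B m (insert y Y) F := by
  classical
  refine ⟨h.disj, h.card, h.blob, ?_⟩
  intro T hT
  refine (h.touch T hT).trans (Finset.card_le_card ?_)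
  apply Finset.filter_subset_filter
  unfold Pcs
  apply Finset.union_subset_union_right
  apply Finset.image_subset_image
  exact Finset.sdiff_subset_sdiff (Finset.subset_insert _ _) (Finset.Subset.refl _)

theorem Occ_insertY (Y : Finset V) (F : Finset (Finset V)) (y : V) :
    Occ (insert y Y) F = insert y (Occ Y F) := by
  unfold Occ
  rw [Finset.insert_union]

theorem good_of {G : SimpleGraph V} {r p B m c κ Q q e M2 : ℕ} (hd : Dens G r p) (hp : 1 ≤ p)
    (hm : 4 * p * κ ^ c ≤ m) (hκ : ∀ ρ, Q ≤ ρ → ρ + (2 * r + 1) ≤ κ * ρ) (hq : 1 ≤ q)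
    (hQ : Q = q ^ 2) (hP1 : 2 * (1 + B * (4 * κ ^ c)) ≤ Q ^ e) (hc : 2 * e ≤ c)
    (hP3 : (M2 + B) * q ^ (2 * e) ≤ q ^ c)
    {Y : Finset V} {F : Finset (Finset V)} (hI : Inv G r B m Y F) (hY : GoodQ G e c Q Y)
    (hM : ∀ v, v ∉ Occ Y F → (Sight G (Occ Y F) Q v).card ≤ M2)
    {A : Finset V} (hA1 : Occ Y F ⊆ A) (hA2 : A.card ≤ (Occ Y F).card + B) : GoodQ G e c q A := by
  intro v hv ρ hρ
  have hvO : v ∉ Occ Y F := fun h => hv (hA1 h)
  have hvY : v ∉ Y := fun h => hvO (Finset.mem_union_left _ h)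
  have h1 := card_sight_le_add (G := G) (k := ρ) (v := v) hA1 hA2
  have hQe : q ^ (2 * e) = Q ^ e := by rw [hQ, ← pow_mul]
  by_cases hρQ : Q ≤ ρ
  · have h2 := sight_occ_bound hd hp hm hκ hI hvO (hY v hvY) ρ hρQ
    rw [hQe]
    have hQ1 : 1 ≤ Q := by rw [hQ]; exact Nat.one_le_pow _ _ hq
    have hκ1 : 1 ≤ κ := by
      have := hκ Q le_rfl
      by_contra h
      have : κ = 0 := by omega
      subst this
      omega
    have hB2 : 2 * B ≤ Q ^ e := by
      refine le_trans ?_ hP1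
      have : 1 ≤ κ ^ c := Nat.one_le_pow _ _ hκ1
      nlinarith
    have hQρ : Q ^ (2 * e) ≤ ρ ^ c :=
      (Nat.pow_le_pow_right hQ1 hc).trans (Nat.pow_le_pow_left hρQ c)
    have hpos : 0 < Q ^ e := by positivity
    have h3 : 2 * (Sight G (Occ Y F) ρ v).card * Q ^ e ≤ ρ ^ c := by
      have : (2 * (Sight G (Occ Y F) ρ v).card * Q ^ e) * Q ^ e ≤ ρ ^ c * Q ^ e := by
        calc (2 * (Sight G (Occ Y F) ρ v).card * Q ^ e) * Q ^ e
            = 2 * ((Sight G (Occ Y F) ρ v).card * Q ^ (2 * e)) := by ring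
          _ ≤ 2 * ((1 + B * (4 * κ ^ c)) * ρ ^ c) := Nat.mul_le_mul_left _ h2
          _ = (2 * (1 + B * (4 * κ ^ c))) * ρ ^ c := by ring
          _ ≤ Q ^ e * ρ ^ c := Nat.mul_le_mul_right _ hP1
          _ = ρ ^ c * Q ^ e := by ring
      exact Nat.le_of_mul_le_mul_right this hpos
    have h4 : 2 * B * Q ^ e ≤ ρ ^ c := by
      calc 2 * B * Q ^ e ≤ Q ^ e * Q ^ e := Nat.mul_le_mul_right _ hB2
        _ = Q ^ (2 * e) := by ring
        _ ≤ _ := hQρ
    have h5 : (Sight G A ρ v).card * Q ^ e ≤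
        ((Sight G (Occ Y F) ρ v).card + B) * Q ^ e := Nat.mul_le_mul_right _ h1
    have h6 : ((Sight G (Occ Y F) ρ v).card + B) * Q ^ e * 2 ≤ ρ ^ c * 2 := by
      calc _ = 2 * (Sight G (Occ Y F) ρ v).card * Q ^ e + 2 * B * Q ^ e := by ring
        _ ≤ ρ ^ c + ρ ^ c := Nat.add_le_add h3 h4
        _ = _ := by ring
    omega
  · have h2 : (Sight G (Occ Y F) ρ v).card ≤ M2 :=
      (Finset.card_le_card (sight_mono_radius (by omega))).trans (hM v hvO)
    calc (Sight G A ρ v).card * q ^ (2 * e) ≤ (M2 + B) * q ^ (2 * e) :=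
          Nat.mul_le_mul_right _ (by omega)
      _ ≤ q ^ c := hP3
      _ ≤ ρ ^ c := Nat.pow_le_pow_left hρ c

theorem level {G : SimpleGraph V} {p D' n K m B q Q N c e κ smin T' : ℕ} (hQ : Q = q ^ 2)
    (hq : 1 ≤ q) (hN : 1 ≤ N) (hd : Dens G (3 * (5 ^ N * Q)) p) (hp : 1 ≤ p)
    (hκ : κ = 6 * 5 ^ N + 2) (hm : 4 * p * κ ^ c ≤ m) (hD' : D' = 8 * Q * (2 * p + 2))
    (hn : n = D' ^ 2 * (4 * p + 6)) (hK : 2048 * D' ^ 4 * n ^ 5 * (5 ^ N * Q) ^ 2 ≤ K)
    (hB : 1 + K * (3 * (5 ^ N * Q) + 1) + m * (5 ^ N * Q) ≤ B)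
    (hs0 : 1 ≤ smin) (hs1 : 2 * (512 * D' ^ 4 * n ^ 4) ≤ smin)
    (hs2 : 2 * (m * B) ≤ smin) (hs3 : 2 * D' * (2 * p + 2) ^ 2 ≤ smin)
    (hT' : T' = (N * Nat.size (Q ^ N)) * (4 * Q * (2 * p + 2) * B))
    (hP1 : 2 * (1 + B * (4 * κ ^ c)) ≤ Q ^ e)
    (hP2 : (1 + B * (4 * κ ^ c)) * (5 ^ N * Q) ^ c ≤ Q ^ N * Q ^ (2 * e)) (hc : 2 * e ≤ c)
    (hP3 : (smin + 2 * T' + 1 + B) * q ^ (2 * e) ≤ q ^ c)
    (H : Hyp G e c Q) : Hyp G e c q := by
  have hQ1 : 1 ≤ Q := by rw [hQ]; exact Nat.one_le_pow _ _ hq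
  have hB1 : 1 ≤ B := by omega
  have hκ' : ∀ ρ, Q ≤ ρ → ρ + (2 * (3 * (5 ^ N * Q)) + 1) ≤ κ * ρ := by
    intro ρ hρ
    rw [hκ]
    have h1 : 5 ^ N * Q ≤ 5 ^ N * ρ := Nat.mul_le_mul_left _ hρ
    have h2 : (6 * 5 ^ N + 2) * ρ = 6 * (5 ^ N * ρ) + 2 * ρ := by ring
    rw [h2]
    omega
  have key : ∀ Y, GChain (GoodQ G e c Q) ∅ Y → GoodQ G e c Q Y ∧
      ∃ F, Inv G (3 * (5 ^ N * Q)) B m Y F ∧
        (∀ v, v ∉ Occ Y F → (Sight G (Occ Y F) Q v).card ≤ smin + T') ∧
        GChain (GoodQ G e c q) ∅ (Occ Y F) := by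
    intro Y hY
    induction hY with
    | refl =>
      refine ⟨?_, ∅, ?_, ?_, ?_⟩
      · intro v _ ρ _
        rw [sight_empty]; simp
      · constructor <;> intro T hT <;> simp at hT
      · intro v _
        simp [Occ, sight_empty]
      · have : Occ (∅ : Finset V) ∅ = ∅ := by simp [Occ]
        rw [this]
        exact Relation.ReflTransGen.refl
    | @tail Y Y' _ hstep ih =>
      obtain ⟨hYg, F, hI, hM, hch⟩ := ih
      obtain ⟨y, hyY, rfl, hYg'⟩ := hstep
      refine ⟨hYg', ?_⟩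
      have hI' := hI.insertY y
      have hocc := Occ_insertY Y F y
      have hM' : ∀ v, v ∉ Occ (insert y Y) F →
          (Sight G (Occ (insert y Y) F) Q v).card ≤ smin + T' + 1 := by
        intro v hv
        rw [hocc] at hv ⊢
        have h1 := card_sight_le_add (G := G) (k := Q) (v := v)
          (Finset.subset_insert y (Occ Y F)) (Finset.card_insert_le _ _)
        have h2 := hM v (fun h => hv (Finset.mem_insert_of_mem h))
        omega
      have hch1 : GChain (GoodQ G e c q) (Occ Y F) (Occ (insert y Y) F) := by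
        rw [hocc]
        apply gchain_of_between (Finset.subset_insert _ _)
        intro A hA1 hA2
        apply good_of hd hp hm hκ' hq hQ hP1 hc (M2 := smin + T') _ hI hYg hM hA1
        · have := Finset.card_le_card hA2
          have := Finset.card_insert_le y (Occ Y F)
          omega
        · refine le_trans (Nat.mul_le_mul_right _ ?_) hP3
          omega
      obtain ⟨F', hF', hIF', hch2, hfin⟩ := reduction (E := Q ^ N) hd hQ1 hN le_rfl hQ1 hD' hn hK hB
        hs0 hs1 hs2 hs3 le_rfl hI'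
        (fun F1 _ hI1 v hv => by
          have hvY : v ∉ insert y Y := fun h => hv (Finset.mem_union_left _ h)
          have hle : Q ≤ 5 ^ N * Q := Nat.le_mul_of_pos_left _ (by positivity)
          have h1 := sight_occ_bound hd hp hm hκ' hI1 hv (hYg' v hvY) (5 ^ N * Q) hle
          have h2 := h1.trans hP2
          exact Nat.le_of_mul_le_mul_right h2 (by positivity))
        (GoodQ G e c q)
        (fun F1 hF1 hI1 hnew A hA1 hA2 => by
          apply good_of hd hp hm hκ' hq hQ hP1 hc (M2 := smin + T' + 1 + T') _ hI1 hYg' _ hA1 hA2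
          · refine le_trans (Nat.mul_le_mul_right _ ?_) hP3
            omega
          · intro v hv
            have h1 := hnew v hv
            rw [← hT'] at h1
            have h2 : (Sight G (Occ (insert y Y) F1) Q v ∩ Occ (insert y Y) F).card ≤
                smin + T' + 1 := by
              refine le_trans (Finset.card_le_card (sight_inter_mono (Occ_mono hF1)
                (Finset.Subset.refl _) le_rfl)) ?_
              exact (Finset.card_le_card Finset.inter_subset_left).trans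
                (hM' v (fun h => hv (Occ_mono hF1 h)))
            have h3 := Finset.card_sdiff_add_card_inter
              (Sight G (Occ (insert y Y) F1) Q v) (Occ (insert y Y) F)
            omega)
      refine ⟨F', hIF', ?_, (hch.trans hch1).trans hch2⟩
      intro v hv
      rw [hT']
      exact hfin v hv
  obtain ⟨_, F, _, _, hch⟩ := key univ H
  have : Occ (univ : Finset V) F = univ := by simp [Occ]
  rw [this] at hch
  exact hch

end Pool.Agent.TH492
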