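import Pool.Agent.TH492.Final

set_option autoImplicit false
set_option linter.unusedSectionVars false

namespace Pool.Agent.TH492

open Finset

/-- one order for all radii. -/
theorem uniform (c0 k0 : ℕ) (hc0 : 1 ≤ c0) : ∃ d c : ℕ, 0 < d ∧
    ∀ (n : ℕ) (G : SimpleGraph (Fin n)), (∀ r, Dens G r (c0 * (r + 1) ^ k0)) →
      ∃ σ : Equiv.Perm (Fin n), ∀ r : ℕ, 1 ≤ r → ∀ v : Fin n,
        {u : Fin n | σ u < σ v ∧ ∃ p : G.Walk u v, p.length ≤ r ∧
            ∀ w ∈ p.support, w ≠ u → w ≠ v → σ v < σ w}.ncard ≤ c * r ^ d := by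
  obtain ⟨e, c, q0, hec, hlev⟩ := levels c0 k0 hc0
  refine ⟨c, (q0 + 2) ^ c, by omega, ?_⟩
  intro n G hd
  obtain ⟨q, hq⟩ : ∃ q, q = q0 + 2 := ⟨_, rfl⟩
  have hH : Hyp G e c q := hyp_all hec (hlev (Fin n) G hd) q (by rw [hq])
  obtain ⟨_, g, hg1, hg2, hg3⟩ := rank_of_chain hH
  have hg2' : ∀ x, g x < n := by
    intro x
    have := hg2 x (Finset.mem_univ x)
    simpa using this
  let f : Fin n → Fin n := fun x => ⟨g x, hg2' x⟩
  have hf : Function.Injective f := by
    intro x y hxy
    apply hg1 (by simp) (by simp)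
    simpa [f] using hxy
  let σ : Equiv.Perm (Fin n) := Equiv.ofBijective f (Finite.injective_iff_bijective.1 hf)
  refine ⟨σ, fun r hr v => ?_⟩
  have hσ : ∀ x y, σ x < σ y ↔ g x < g y := by
    intro x y
    simp [σ, f, Equiv.ofBijective_apply, Fin.lt_def]
  set A : Finset (Fin n) := univ.filter (fun y => g y < g v) with hA
  have hvA : v ∉ A := by simp [hA]
  have hsub : {u : Fin n | σ u < σ v ∧ ∃ p : G.Walk u v, p.length ≤ r ∧
      ∀ w ∈ p.support, w ≠ u → w ≠ v → σ v < σ w} ⊆ (Sight G A (max r q) v : Set (Fin n)) := by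
    rintro u ⟨huv, p, hp, hw⟩
    rw [Finset.mem_coe, mem_sight]
    have huA : u ∈ A := by
      rw [hA, Finset.mem_filter]
      exact ⟨Finset.mem_univ _, (hσ u v).1 huv⟩
    have h1 := sees_of_walk (G := G) (A := A) p.reverse hvA huA (by
      intro w hwp hwu
      rw [SimpleGraph.Walk.support_reverse, List.mem_reverse] at hwp
      by_cases hwv : w = v
      · rw [hwv]; exact hvA
      · have h2 := (hσ v w).1 (hw w hwp hwu hwv)
        rw [hA, Finset.mem_filter]
        intro h3
        omega)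
    refine h1.mono (Finset.Subset.refl _) huA ?_
    rw [SimpleGraph.Walk.length_reverse]
    exact hp.trans (le_max_left _ _)
  have hcard : (Sight G A (max r q) v).card ≤ (max r q) ^ c := by
    rcases hg3 v (Finset.mem_univ v) with h0 | hgood
    · have : A = ∅ := h0
      rw [this, sight_empty]
      simp
    · have h4 := hgood v hvA (max r q) (le_max_right _ _)
      have hq1 : 1 ≤ q := by omega
      calc (Sight G A (max r q) v).card = (Sight G A (max r q) v).card * 1 := (mul_one _).symm
        _ ≤ (Sight G A (max r q) v).card * q ^ (2 * e) :=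
          Nat.mul_le_mul_left _ (Nat.one_le_pow _ _ hq1)
        _ ≤ (max r q) ^ c := h4
  calc _ ≤ ((Sight G A (max r q) v : Set (Fin n))).ncard :=
        Set.ncard_le_ncard hsub (Finset.finite_toSet _)
    _ = (Sight G A (max r q) v).card := Set.ncard_coe_finset _
    _ ≤ (max r q) ^ c := hcard
    _ ≤ ((q0 + 2) * r) ^ c := by
        apply Nat.pow_le_pow_left
        rw [hq]
        apply max_le
        · exact Nat.le_mul_of_pos_left _ (by omega)
        · exact Nat.le_mul_of_pos_right _ (by omega)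
    _ = (q0 + 2) ^ c * r ^ c := mul_pow _ _ _

end Pool.Agent.TH492
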