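import Pool.Agent.TH492.ColDefs
import Pool.Agent.TH492.Uniform

set_option autoImplicit false
set_option linter.unusedSectionVars false

namespace Pool.Agent.TH492.Col

open Pool.Agent.TH492

/-! ### real polynomials versus `c (r+1)^k` -/

theorem poly_bound (P : Polynomial ℝ) : ∃ c k : ℕ, ∀ r : ℕ, P.eval (r : ℝ) ≤ c * ((r : ℝ) + 1) ^ k := by
  classical
  obtain ⟨c, hc⟩ := exists_nat_ge (∑ i ∈ Finset.range (P.natDegree + 1), |P.coeff i|)
  refine ⟨c, P.natDegree, fun r => ?_⟩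
  rw [Polynomial.eval_eq_sum_range]
  have hr : (0 : ℝ) ≤ r := Nat.cast_nonneg r
  calc ∑ i ∈ Finset.range (P.natDegree + 1), P.coeff i * (r : ℝ) ^ i
      ≤ ∑ i ∈ Finset.range (P.natDegree + 1), |P.coeff i| * ((r : ℝ) + 1) ^ P.natDegree := by
        apply Finset.sum_le_sum
        intro i hi
        have hi' : i ≤ P.natDegree := by
          rw [Finset.mem_range] at hi; omega
        calc P.coeff i * (r : ℝ) ^ i ≤ |P.coeff i| * (r : ℝ) ^ i :=
              mul_le_mul_of_nonneg_right (le_abs_self _) (by positivity)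
          _ ≤ |P.coeff i| * ((r : ℝ) + 1) ^ P.natDegree := by
              apply mul_le_mul_of_nonneg_left _ (abs_nonneg _)
              calc (r : ℝ) ^ i ≤ ((r : ℝ) + 1) ^ i := by gcongr; linarith
                _ ≤ ((r : ℝ) + 1) ^ P.natDegree := pow_le_pow_right₀ (by linarith) hi'
    _ = (∑ i ∈ Finset.range (P.natDegree + 1), |P.coeff i|) * ((r : ℝ) + 1) ^ P.natDegree := by
        rw [Finset.sum_mul]
    _ ≤ c * ((r : ℝ) + 1) ^ P.natDegree := by gcongr

theorem rpow_bound (c K : ℝ) : ∃ a k : ℕ, ∀ r : ℕ, 1 ≤ r → K * (r : ℝ) ^ c ≤ a * (r : ℝ) ^ k := by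
  obtain ⟨a, ha⟩ := exists_nat_ge |K|
  obtain ⟨k, hk⟩ := exists_nat_ge c
  refine ⟨a, k, fun r hr => ?_⟩
  have hr1 : (1 : ℝ) ≤ r := by exact_mod_cast hr
  have h1 : (r : ℝ) ^ c ≤ (r : ℝ) ^ k := by
    rw [← Real.rpow_natCast]
    exact Real.rpow_le_rpow_of_exponent_le hr1 hk
  calc K * (r : ℝ) ^ c ≤ |K| * (r : ℝ) ^ c :=
        mul_le_mul_of_nonneg_right (le_abs_self _) (Real.rpow_nonneg (by linarith) _)
    _ ≤ a * (r : ℝ) ^ k := by
        apply mul_le_mul ha h1 (Real.rpow_nonneg (by linarith) _) (Nat.cast_nonneg _)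

theorem col_mem {n : ℕ} (r : ℕ) (G : SimpleGraph (Fin n)) :
    ∃ σ : Equiv.Perm (Fin n), ∀ u, (Strong G σ r u).ncard ≤ col r G := by
  have hne : {k | ∃ σ : Equiv.Perm (Fin n), ∀ u, (Strong G σ r u).ncard ≤ k}.Nonempty := by
    refine ⟨n, 1, fun u => ?_⟩
    calc (Strong G 1 r u).ncard ≤ (Set.univ : Set (Fin n)).ncard :=
          Set.ncard_le_ncard (Set.subset_univ _) Set.finite_univ
      _ = n := by rw [Set.ncard_univ]; simp
  exact Nat.sInf_mem hne

/-! ### from walks to paths -/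

/-- a walk to a smaller vertex whose first smaller vertex lies in `Q`. -/
theorem strong_of_walk {n : ℕ} {G : SimpleGraph (Fin n)} {σ : Equiv.Perm (Fin n)} {y : Fin n}
    (Q : Set (Fin n)) {x z : Fin n} (p : G.Walk x z) (hz : σ z < σ y) (hx : σ y ≤ σ x)
    (hQ : ∀ w ∈ p.support, σ w < σ y → w ∈ Q) :
    ∃ v ∈ Q, σ v < σ y ∧ ∃ q : G.Walk x v, q.length ≤ p.length ∧
      ∀ w ∈ q.support, w ≠ v → σ y ≤ σ w := by
  induction p with
  | nil => exact absurd hz (not_lt.2 hx)
  | @cons a b d hab p ih =>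
    by_cases hb : σ b < σ y
    · refine ⟨b, hQ b (by simp) hb, hb, SimpleGraph.Walk.cons hab SimpleGraph.Walk.nil, by simp, ?_⟩
      intro w hw hwb
      simp only [SimpleGraph.Walk.support_cons, SimpleGraph.Walk.support_nil, List.mem_cons,
        List.not_mem_nil, or_false] at hw
      rcases hw with rfl | rfl
      · exact hx
      · exact absurd rfl hwb
    · obtain ⟨v, hv, hvy, q, hq, hqw⟩ := ih hz (not_lt.1 hb)
        (fun w hw => hQ w (by simp [hw]))
      refine ⟨v, hv, hvy, SimpleGraph.Walk.cons hab q, by simpa using hq, ?_⟩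
      intro w hw hwv
      rw [SimpleGraph.Walk.support_cons, List.mem_cons] at hw
      rcases hw with rfl | hw
      · exact hx
      · exact hqw w hw hwv

theorem norin {n m : ℕ} {G : SimpleGraph (Fin n)} {H : SimpleGraph (Fin m)} {r K : ℕ}
    (hH : IsDepthMinor r G H) (σ : Equiv.Perm (Fin n))
    (hσ : ∀ u, (Strong G σ (4 * r + 1) u).ncard ≤ K) : H.edgeSet.ncard ≤ K * m := by
  classical
  obtain ⟨B, hdis, hrad, hadj⟩ := hH
  -- the least vertices of the branch sets
  have hmin : ∀ i, ∃ x ∈ B i, ∀ y ∈ B i, σ x ≤ σ y := by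
    intro i
    obtain ⟨x0, hx0, _⟩ := hrad i
    obtain ⟨x, hx, hxmin⟩ := Set.exists_min_image (B i) σ (Set.toFinite _) ⟨x0, hx0⟩
    exact ⟨x, hx, hxmin⟩
  choose μ hμB hμmin using hmin
  -- the key claim
  have key : ∀ i j, H.Adj i j → σ (μ i) < σ (μ j) →
      ∃ v ∈ Strong G σ (4 * r + 1) (μ j), v ∈ B i := by
    intro i j hij hlt
    obtain ⟨a, ha, b, hb, hab⟩ := hadj i j hij
    obtain ⟨xi, hxi, hwi⟩ := hrad i
    obtain ⟨xj, hxj, hwj⟩ := hrad j
    obtain ⟨p1, hp1, hp1s⟩ := hwj (μ j) (hμB j)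
    obtain ⟨p2, hp2, hp2s⟩ := hwj b hb
    obtain ⟨p3, hp3, hp3s⟩ := hwi a ha
    obtain ⟨p4, hp4, hp4s⟩ := hwi (μ i) (hμB i)
    let p : G.Walk (μ j) (μ i) :=
      (p1.reverse.append p2).append (SimpleGraph.Walk.cons hab.symm (p3.reverse.append p4))
    have hlen : p.length ≤ 4 * r + 1 := by
      simp only [p, SimpleGraph.Walk.length_append, SimpleGraph.Walk.length_reverse,
        SimpleGraph.Walk.length_cons]
      omega
    have hsupp : ∀ w ∈ p.support, w ∈ B j ∨ w ∈ B i := by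
      intro w hw
      simp only [p, SimpleGraph.Walk.mem_support_append_iff, SimpleGraph.Walk.support_cons,
        SimpleGraph.Walk.support_reverse, List.mem_reverse, List.mem_cons] at hw
      rcases hw with (hw | hw) | (hw | hw | hw)
      · exact Or.inl (hp1s w hw)
      · exact Or.inl (hp2s w hw)
      · exact Or.inl (hw ▸ hb)
      · exact Or.inr (hp3s w hw)
      · exact Or.inr (hp4s w hw)
    obtain ⟨v, hvB, hvlt, q, hq, hqs⟩ := strong_of_walk (y := μ j) (B i) p hlt le_rfl (by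
      intro w hw hwlt
      rcases hsupp w hw with h | h
      · exact absurd hwlt (not_lt.2 (hμmin j w h))
      · exact h)
    refine ⟨v, ⟨hvlt.le, q.bypass, q.bypass_isPath, ?_, ?_⟩, hvB⟩
    · exact (q.length_bypass_le_length).trans (hq.trans hlen)
    · intro w hw hwu hwv
      have h1 := hqs w (q.support_bypass_subset_support hw) hwv
      refine lt_of_le_of_ne h1 (fun h => hwu ?_)
      exact (σ.injective h).symm
  -- assign to each edge a pair
  have hedge : ∀ e ∈ H.edgeSet, ∃ x : Fin m × Fin n, x.2 ∈ Strong G σ (4 * r + 1) (μ x.1) ∧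
      ∃ i, x.2 ∈ B i ∧ e = s(i, x.1) := by
    intro e
    induction e using Sym2.ind with
    | _ i j =>
      intro he
      rw [SimpleGraph.mem_edgeSet] at he
      have hne : μ i ≠ μ j := by
        intro h
        exact Set.disjoint_left.1 (hdis i j he.ne) (hμB i) (h ▸ hμB j)
      rcases lt_trichotomy (σ (μ i)) (σ (μ j)) with h | h | h
      · obtain ⟨v, hv, hvB⟩ := key i j he h
        exact ⟨(j, v), hv, i, hvB, rfl⟩
      · exact absurd (σ.injective h) hne
      · obtain ⟨v, hv, hvB⟩ := key j i he.symm h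
        exact ⟨(i, v), hv, j, hvB, Sym2.eq_swap⟩
  rcases H.edgeSet.eq_empty_or_nonempty with hemp | ⟨e0, he0⟩
  · rw [hemp]; simp
  haveI : Nonempty (Fin m × Fin n) := ⟨(hedge e0 he0).choose⟩
  choose! φ hφ1 hφ2 using hedge
  let S : Finset (Fin m × Fin n) :=
    Finset.univ.filter (fun x => x.2 ∈ Strong G σ (4 * r + 1) (μ x.1))
  have hinj : Set.InjOn φ H.edgeSet := by
    intro e he e' he' h
    obtain ⟨i, hi, hie⟩ := hφ2 e he
    obtain ⟨i', hi', hie'⟩ := hφ2 e' he'
    rw [← h] at hi' hie'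
    have : i = i' := by
      by_contra hne
      exact Set.disjoint_left.1 (hdis i i' hne) hi hi'
    rw [hie, hie', this]
  have h1 : H.edgeSet.ncard ≤ (S : Set (Fin m × Fin n)).ncard := by
    apply Set.ncard_le_ncard_of_injOn φ _ hinj (Finset.finite_toSet _)
    intro e he
    simp only [S, Finset.coe_filter, Finset.mem_univ, true_and, Set.mem_setOf_eq]
    exact hφ1 e he
  have h2 : S.card ≤ K * m := by
    have hS : S = Finset.univ.biUnion (fun j : Fin m =>
        (Finset.univ.filter (fun v => v ∈ Strong G σ (4 * r + 1) (μ j))).image (fun v => (j, v))) := by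
      ext x
      simp only [S, Finset.mem_filter, Finset.mem_univ, true_and, Finset.mem_biUnion,
        Finset.mem_image]
      constructor
      · intro h; exact ⟨x.1, x.2, h, rfl⟩
      · rintro ⟨j, v, h, rfl⟩; exact h
    rw [hS]
    refine (Finset.card_biUnion_le).trans ?_
    calc ∑ j : Fin m, ((Finset.univ.filter
          (fun v => v ∈ Strong G σ (4 * r + 1) (μ j))).image (fun v => (j, v))).card
        ≤ ∑ _j : Fin m, K := by
          apply Finset.sum_le_sum
          intro j _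
          refine Finset.card_image_le.trans ?_
          have := hσ (μ j)
          rwa [Set.ncard_eq_toFinset_card', Set.toFinset_card,
            Fintype.card_subtype] at this
      _ = K * m := by simp [mul_comm]
  rw [Set.ncard_coe_finset] at h1
  exact h1.trans h2

theorem polyExp_of_polyCol {C : (n : ℕ) → SimpleGraph (Fin n) → Prop} (h : PolyCol C) :
    PolyExpansion C := by
  obtain ⟨c, K, hC⟩ := h
  obtain ⟨a, k, hak⟩ := rpow_bound c K
  refine ⟨Polynomial.C (a : ℝ) * (4 * Polynomial.X + 1) ^ k, ?_⟩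
  intro r n G hG m H hH
  obtain ⟨σ, hσ⟩ := col_mem (4 * r + 1) G
  have h1 := norin hH σ hσ
  have h2 := hC (4 * r + 1) n G (by omega) hG
  have h3 := hak (4 * r + 1) (by omega)
  have h4 : (H.edgeSet.ncard : ℝ) ≤ (col (4 * r + 1) G : ℝ) * m := by exact_mod_cast h1
  calc (H.edgeSet.ncard : ℝ) ≤ (col (4 * r + 1) G : ℝ) * m := h4
    _ ≤ (a * ((4 * r + 1 : ℕ) : ℝ) ^ k) * m := by
        apply mul_le_mul_of_nonneg_right (h2.trans h3) (Nat.cast_nonneg _)
    _ = _ := by
        simp only [Polynomial.eval_mul, Polynomial.eval_C, Polynomial.eval_pow,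
          Polynomial.eval_add, Polynomial.eval_X, Polynomial.eval_one, Polynomial.eval_ofNat]
        push_cast
        ring

theorem uniform_of_polyExp {C : (n : ℕ) → SimpleGraph (Fin n) → Prop} (h : PolyExpansion C) :
    UniformPolyCol C := by
  obtain ⟨P, hP⟩ := h
  obtain ⟨c0, k0, hck⟩ := poly_bound P
  obtain ⟨d, c, hd0, hd⟩ := Pool.Agent.TH492.uniform (c0 + 1) k0 (by omega)
  refine ⟨d, c + 1, ?_⟩
  intro n G hG
  have hdens : ∀ r, Dens G r ((c0 + 1) * (r + 1) ^ k0) := by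
    intro r m H B h1 h2 h3
    have h4 := hP r n G hG m H ⟨B, h1, h2, h3⟩
    have h5 : (H.edgeSet.ncard : ℝ) ≤ (((c0 + 1) * (r + 1) ^ k0 * m : ℕ) : ℝ) := by
      refine h4.trans ?_
      push_cast
      apply mul_le_mul_of_nonneg_right _ (Nat.cast_nonneg _)
      refine (hck r).trans ?_
      have : (0 : ℝ) ≤ ((r : ℝ) + 1) ^ k0 := by positivity
      nlinarith
    exact_mod_cast h5
  obtain ⟨σ, hσ⟩ := hd n G hdens
  refine ⟨σ, fun r hr u => ?_⟩
  have h6 := hσ r hr u
  have hsub : Strong G σ r u ⊆ insert u {v : Fin n | σ v < σ u ∧ ∃ p : G.Walk v u, p.length ≤ r ∧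
            ∀ w ∈ p.support, w ≠ v → w ≠ u → σ u < σ w} := by
    rintro v ⟨hvu, p, _, hp, hw⟩
    rcases hvu.lt_or_eq with hlt | heq
    · right
      refine ⟨hlt, p.reverse, by simpa using hp, ?_⟩
      intro w hw1 hwv hwu
      exact hw w (by simpa using hw1) hwu hwv
    · left
      exact σ.injective heq
  have h7 : (Strong G σ r u).ncard ≤ c * r ^ d + 1 := by
    refine (Set.ncard_le_ncard hsub (Set.toFinite _)).trans ?_
    refine (Set.ncard_insert_le _ _).trans ?_
    omega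
  have h8 : (1 : ℝ) ≤ (r : ℝ) ^ d := one_le_pow₀ (by exact_mod_cast hr)
  rw [Real.rpow_natCast]
  calc ((Strong G σ r u).ncard : ℝ) ≤ ((c * r ^ d + 1 : ℕ) : ℝ) := by exact_mod_cast h7
    _ = c * (r : ℝ) ^ d + 1 := by push_cast; ring
    _ ≤ (c + 1) * (r : ℝ) ^ d := by linarith

theorem polyCol_of_uniform {C : (n : ℕ) → SimpleGraph (Fin n) → Prop} (h : UniformPolyCol C) :
    PolyCol C := by
  obtain ⟨c, K, hC⟩ := h
  refine ⟨c, max K 0, ?_⟩
  intro r n G hr hG
  obtain ⟨σ, hσ⟩ := hC n G hG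
  have hr0 : (0 : ℝ) ≤ (r : ℝ) ^ c := Real.rpow_nonneg (Nat.cast_nonneg _) _
  have h1 : ∀ u, (Strong G σ r u).ncard ≤ ⌊max K 0 * (r : ℝ) ^ c⌋₊ := by
    intro u
    apply Nat.le_floor
    exact (hσ r hr u).trans (mul_le_mul_of_nonneg_right (le_max_left _ _) hr0)
  have h2 : col r G ≤ ⌊max K 0 * (r : ℝ) ^ c⌋₊ := Nat.sInf_le ⟨σ, h1⟩
  calc (col r G : ℝ) ≤ (⌊max K 0 * (r : ℝ) ^ c⌋₊ : ℝ) := by exact_mod_cast h2
    _ ≤ _ := Nat.floor_le (mul_nonneg (le_max_right _ _) hr0)

end Pool.Agent.TH492.Col
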