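import Pool.Agent.TH492.Stage

set_option autoImplicit false
set_option linter.unusedSectionVars false

namespace Pool.Agent.TH492

open Finset

universe u
variable {V : Type u} [Fintype V] [DecidableEq V]

/-- the largest number of vertices of `S` seen from an unoccupied vertex. -/
noncomputable def supS (G : SimpleGraph V) (L S : Finset V) (k : ℕ) : ℕ :=
  (univ.filter (fun v => v ∉ L)).sup (fun v => (Sight G L k v ∩ S).card)

theorem le_supS {G : SimpleGraph V} {L S : Finset V} {k : ℕ} {v : V} (hv : v ∉ L) :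
    (Sight G L k v ∩ S).card ≤ supS G L S k :=
  Finset.le_sup (f := fun v => (Sight G L k v ∩ S).card)
    (Finset.mem_filter.2 ⟨Finset.mem_univ _, hv⟩)

theorem supS_le {G : SimpleGraph V} {L S : Finset V} {k b : ℕ}
    (h : ∀ v, v ∉ L → (Sight G L k v ∩ S).card ≤ b) : supS G L S k ≤ b := by
  apply Finset.sup_le
  intro v hv
  exact h v (Finset.mem_filter.1 hv).2

theorem supS_mono {G : SimpleGraph V} {L L' S : Finset V} {j k : ℕ} (hL : L ⊆ L') (hS : S ⊆ L)
    (hk : k ≤ j) : supS G L' S k ≤ supS G L S j := by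
  apply supS_le
  intro v hv
  exact (Finset.card_le_card (sight_inter_mono hL hS hk)).trans (le_supS (fun h => hv (hL h)))

theorem sight_mono_radius {G : SimpleGraph V} {L : Finset V} {j k : ℕ} {v : V} (hk : k ≤ j) :
    Sight G L k v ⊆ Sight G L j v := by
  intro x hx
  have h := mem_sight.1 hx
  exact mem_sight.2 (h.mono (Finset.Subset.refl _) h.1 hk)

theorem size_half {a s : ℕ} (h : 2 * a ≤ s) (hs : 0 < s) : Nat.size a + 1 ≤ Nat.size s := by
  have h1 : s < 2 ^ Nat.size s := Nat.lt_size_self s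
  have h2 : 0 < Nat.size s := Nat.size_pos.2 hs
  obtain ⟨t, ht⟩ : ∃ t, Nat.size s = t + 1 := ⟨Nat.size s - 1, by omega⟩
  rw [ht] at h1 ⊢
  have : Nat.size a ≤ t := by
    rw [Nat.size_le]
    rw [pow_succ] at h1
    omega
  omega

theorem card_sight_sdiff {G : SimpleGraph V} {L L' S : Finset V} {Q ρ : ℕ} {v : V} {a b : ℕ}
    (hL : L ⊆ L') (hQ : Q ≤ ρ) (h1 : (Sight G L Q v \ S).card ≤ a)
    (h2 : (Sight G L' ρ v \ L).card ≤ b) : (Sight G L' Q v \ S).card ≤ a + b := by
  have hsub : Sight G L' Q v \ S ⊆ (Sight G L Q v \ S) ∪ (Sight G L' ρ v \ L) := by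
    intro x hx
    rw [Finset.mem_sdiff] at hx
    rw [Finset.mem_union, Finset.mem_sdiff, Finset.mem_sdiff]
    by_cases hxL : x ∈ L
    · left
      exact ⟨mem_sight.2 ((mem_sight.1 hx.1).mono hL hxL le_rfl), hx.2⟩
    · right
      exact ⟨sight_mono_radius hQ hx.1, hxL⟩
  calc _ ≤ _ := Finset.card_le_card hsub
    _ ≤ _ := Finset.card_union_le _ _
    _ ≤ a + b := Nat.add_le_add h1 h2

theorem reduction_aux {G : SimpleGraph V} {r p D D' n K m B Q N' smin E Tmax : ℕ}
    (hd : Dens G r p) (hQ : 1 ≤ Q) (hN' : 1 ≤ N')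
    (hr : 3 * (5 ^ N' * Q) ≤ r) (hD : 1 ≤ D) (hD' : D' = 8 * D * (2 * p + 2))
    (hn : n = D' ^ 2 * (4 * p + 6)) (hK : 2048 * D' ^ 4 * n ^ 5 * (5 ^ N' * Q) ^ 2 ≤ K)
    (hB : 1 + K * (3 * (5 ^ N' * Q) + 1) + m * (5 ^ N' * Q) ≤ B)
    (hs0 : 1 ≤ smin) (hs1 : 2 * (512 * D' ^ 4 * n ^ 4) ≤ smin)
    (hs2 : 2 * (m * B) ≤ smin) (hs3 : 2 * D' * (2 * p + 2) ^ 2 ≤ smin)
    (hE : E ≤ D ^ N')
    {Y : Finset V} {F0 : Finset (Finset V)} {S : Finset V} (hSd : S = Occ Y F0)
    (hEb : ∀ F1, F0 ⊆ F1 → Inv G r B m Y F1 →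
      ∀ v, v ∉ Occ Y F1 → (Sight G (Occ Y F1) (5 ^ N' * Q) v).card ≤ E)
    (Good : Finset V → Prop)
    (hGood : ∀ F1, F0 ⊆ F1 → Inv G r B m Y F1 →
      (∀ v, v ∉ Occ Y F1 →
        (Sight G (Occ Y F1) Q v \ S).card ≤ Tmax * (4 * D * (2 * p + 2) * B)) →
      ∀ A, Occ Y F1 ⊆ A → A.card ≤ (Occ Y F1).card + B → Good A) :
    ∀ (N j : ℕ) (F : Finset (Finset V)), F0 ⊆ F → Inv G r B m Y F →
      ∑ i ∈ range N', Nat.size (supS G (Occ Y F) S (5 ^ i * Q)) ≤ N → j + N ≤ Tmax →
      (∀ v, v ∉ Occ Y F → (Sight G (Occ Y F) Q v \ S).card ≤ j * (4 * D * (2 * p + 2) * B)) →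
      ∃ F', F ⊆ F' ∧ Inv G r B m Y F' ∧ GChain Good (Occ Y F) (Occ Y F') ∧
        ∀ v, v ∉ Occ Y F' →
          (Sight G (Occ Y F') Q v).card ≤ smin + Tmax * (4 * D * (2 * p + 2) * B) := by
  intro N
  induction N with
  | zero =>
    intro j F hF hI hsum hj hnew
    refine ⟨F, Finset.Subset.refl _, hI, Relation.ReflTransGen.refl, ?_⟩
    intro v hv
    have h0 : Nat.size (supS G (Occ Y F) S (5 ^ 0 * Q)) = 0 := by
      have := Finset.single_le_sum (f := fun i => Nat.size (supS G (Occ Y F) S (5 ^ i * Q)))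
        (fun i _ => Nat.zero_le _) (Finset.mem_range.2 (show 0 < N' by omega))
      omega
    rw [Nat.size_eq_zero, pow_zero, one_mul] at h0
    have h1 := le_supS (G := G) (S := S) (k := Q) hv
    have h2 := hnew v hv
    have h3 := Finset.card_sdiff_add_card_inter (Sight G (Occ Y F) Q v) S
    have h4 : j * (4 * D * (2 * p + 2) * B) ≤ Tmax * (4 * D * (2 * p + 2) * B) :=
      Nat.mul_le_mul_right _ (by omega)
    omega
  | succ N ih =>
    intro j F hF hI hsum hj hnew
    have hSF : S ⊆ Occ Y F := hSd ▸ Occ_mono hF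
    by_cases hs : supS G (Occ Y F) S (5 ^ 0 * Q) ≤ smin
    · refine ⟨F, Finset.Subset.refl _, hI, Relation.ReflTransGen.refl, ?_⟩
      intro v hv
      rw [pow_zero, one_mul] at hs
      have h1 := le_supS (G := G) (S := S) (k := Q) hv
      have h2 := hnew v hv
      have h3 := Finset.card_sdiff_add_card_inter (Sight G (Occ Y F) Q v) S
      have h4 : j * (4 * D * (2 * p + 2) * B) ≤ Tmax * (4 * D * (2 * p + 2) * B) :=
        Nat.mul_le_mul_right _ (by omega)
      omega
    · push Not at hs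
      have hpow : ∀ i j : ℕ, i ≤ j → 5 ^ i * Q ≤ 5 ^ j * Q := fun i j hij =>
        Nat.mul_le_mul_right _ (Nat.pow_le_pow_right (by norm_num) hij)
      have hmonr : ∀ i, supS G (Occ Y F) S (5 ^ 0 * Q) ≤ supS G (Occ Y F) S (5 ^ i * Q) :=
        fun i => supS_mono (Finset.Subset.refl _) hSF (hpow 0 i (Nat.zero_le _))
      -- find a radius with moderate growth
      have hex : ∃ i < N', supS G (Occ Y F) S (5 ^ (i + 1) * Q) ≤
          D * supS G (Occ Y F) S (5 ^ i * Q) := by
        by_contra hno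
        push Not at hno
        have hgrow : ∀ i ≤ N', D ^ i * supS G (Occ Y F) S (5 ^ 0 * Q) ≤
            supS G (Occ Y F) S (5 ^ i * Q) := by
          intro i
          induction i with
          | zero => intro _; simp
          | succ i ihi =>
            intro hi
            calc D ^ (i + 1) * supS G (Occ Y F) S (5 ^ 0 * Q)
                = D * (D ^ i * supS G (Occ Y F) S (5 ^ 0 * Q)) := by ring
              _ ≤ D * supS G (Occ Y F) S (5 ^ i * Q) := Nat.mul_le_mul_left _ (ihi (by omega))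
              _ ≤ _ := (hno i (by omega)).le
        have h1 := hgrow N' le_rfl
        have h2 : supS G (Occ Y F) S (5 ^ N' * Q) ≤ E := by
          apply supS_le
          intro v hv
          exact (Finset.card_le_card Finset.inter_subset_left).trans (hEb F hF hI v hv)
        have h3 : D ^ N' * 2 ≤ D ^ N' * supS G (Occ Y F) S (5 ^ 0 * Q) :=
          Nat.mul_le_mul_left _ (by omega)
        have h4 : 0 < D ^ N' := by positivity
        omega
      obtain ⟨i, hi, hig⟩ := hex
      set s := supS G (Occ Y F) S (5 ^ i * Q) with hsdef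
      have hsmin : smin < s := lt_of_lt_of_le hs (hmonr i)
      have hρ1 : 1 ≤ 5 ^ i * Q := Nat.one_le_iff_ne_zero.mpr (by positivity)
      have hρR : 5 ^ i * Q ≤ 5 ^ N' * Q := hpow i N' hi.le
      have hT1 : j * (4 * D * (2 * p + 2) * B) + 4 * D * (2 * p + 2) * B ≤
          Tmax * (4 * D * (2 * p + 2) * B) := by
        calc _ = (j + 1) * (4 * D * (2 * p + 2) * B) := by ring
          _ ≤ _ := Nat.mul_le_mul_right _ (by omega)
      have hcomb : ∀ F1, F ⊆ F1 →
          (∀ v, v ∉ Occ Y F1 → (Sight G (Occ Y F1) (5 ^ i * Q) v \ Occ Y F).card ≤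
            4 * D * (2 * p + 2) * B) →
          ∀ v, v ∉ Occ Y F1 → (Sight G (Occ Y F1) Q v \ S).card ≤
            j * (4 * D * (2 * p + 2) * B) + 4 * D * (2 * p + 2) * B := by
        intro F1 hF1 hnew1 v hv
        exact card_sight_sdiff (Occ_mono hF1) (by simpa using hpow 0 i (Nat.zero_le _))
          (hnew v (fun h => hv (Occ_mono hF1 h))) (hnew1 v hv)
      obtain ⟨F1, hF1, hI1, hch1, hhalf, hnew1⟩ := stage (s := s) hd hρ1 (by omega) hD hD' hn
        (K := K) (m := m) (B := B)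
        ((Nat.mul_le_mul_left _ (Nat.pow_le_pow_left hρR 2)).trans hK)
        (le_trans (by gcongr) hB) (by omega) (by omega) (by omega) hI hSF
        (fun v hv => le_supS hv)
        (fun v hv => by
          have h5 : 5 * (5 ^ i * Q) = 5 ^ (i + 1) * Q := by ring
          rw [h5]
          exact (le_supS hv).trans hig)
        Good
        (fun F2 hF2 hI2 hnew2 A hA1 hA2 =>
          hGood F2 (hF.trans hF2) hI2
            (fun v hv => (hcomb F2 hF2 hnew2 v hv).trans hT1) A hA1 hA2)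
      have hsize : ∑ i ∈ range N', Nat.size (supS G (Occ Y F1) S (5 ^ i * Q)) ≤ N := by
        have hlt : ∑ i ∈ range N', Nat.size (supS G (Occ Y F1) S (5 ^ i * Q)) <
            ∑ i ∈ range N', Nat.size (supS G (Occ Y F) S (5 ^ i * Q)) := by
          apply Finset.sum_lt_sum
          · intro l _
            exact Nat.size_le_size (supS_mono (Occ_mono hF1) hSF le_rfl)
          · refine ⟨i, Finset.mem_range.2 hi, ?_⟩
            have h6 : 2 * supS G (Occ Y F1) S (5 ^ i * Q) ≤ s := by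
              have : supS G (Occ Y F1) S (5 ^ i * Q) ≤ s / 2 := by
                apply supS_le
                intro v hv
                have := hhalf v hv
                omega
              omega
            have := size_half h6 (by omega)
            change Nat.size (supS G (Occ Y F1) S (5 ^ i * Q)) < Nat.size s
            omega
        omega
      obtain ⟨F', hF', hI', hch', hfin⟩ := ih (j + 1) F1 (hF.trans hF1) hI1 hsize (by omega)
        (fun v hv => by
          have := hcomb F1 hF1 hnew1 v hv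
          calc _ ≤ _ := this
            _ = (j + 1) * (4 * D * (2 * p + 2) * B) := by ring)
      exact ⟨F', hF1.trans hF', hI', hch1.trans hch', hfin⟩

theorem reduction {G : SimpleGraph V} {r p D D' n K m B Q N' smin E : ℕ}
    (hd : Dens G r p) (hQ : 1 ≤ Q) (hN' : 1 ≤ N')
    (hr : 3 * (5 ^ N' * Q) ≤ r) (hD : 1 ≤ D) (hD' : D' = 8 * D * (2 * p + 2))
    (hn : n = D' ^ 2 * (4 * p + 6)) (hK : 2048 * D' ^ 4 * n ^ 5 * (5 ^ N' * Q) ^ 2 ≤ K)
    (hB : 1 + K * (3 * (5 ^ N' * Q) + 1) + m * (5 ^ N' * Q) ≤ B)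
    (hs0 : 1 ≤ smin) (hs1 : 2 * (512 * D' ^ 4 * n ^ 4) ≤ smin)
    (hs2 : 2 * (m * B) ≤ smin) (hs3 : 2 * D' * (2 * p + 2) ^ 2 ≤ smin)
    (hE : E ≤ D ^ N')
    {Y : Finset V} {F0 : Finset (Finset V)} (hI : Inv G r B m Y F0)
    (hEb : ∀ F1, F0 ⊆ F1 → Inv G r B m Y F1 →
      ∀ v, v ∉ Occ Y F1 → (Sight G (Occ Y F1) (5 ^ N' * Q) v).card ≤ E)
    (Good : Finset V → Prop)
    (hGood : ∀ F1, F0 ⊆ F1 → Inv G r B m Y F1 →
      (∀ v, v ∉ Occ Y F1 →
        (Sight G (Occ Y F1) Q v \ Occ Y F0).card ≤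
          (N' * Nat.size E) * (4 * D * (2 * p + 2) * B)) →
      ∀ A, Occ Y F1 ⊆ A → A.card ≤ (Occ Y F1).card + B → Good A) :
      ∃ F', F0 ⊆ F' ∧ Inv G r B m Y F' ∧ GChain Good (Occ Y F0) (Occ Y F') ∧
        ∀ v, v ∉ Occ Y F' →
          (Sight G (Occ Y F') Q v).card ≤
            smin + (N' * Nat.size E) * (4 * D * (2 * p + 2) * B) := by
  apply reduction_aux hd hQ hN' hr hD hD' hn hK hB hs0 hs1 hs2 hs3 hE rfl hEb Good hGood
    (N' * Nat.size E) 0 F0 (Finset.Subset.refl _) hI ?_ (by omega) ?_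
  · calc ∑ i ∈ range N', Nat.size (supS G (Occ Y F0) (Occ Y F0) (5 ^ i * Q))
        ≤ ∑ _i ∈ range N', Nat.size E := by
          apply Finset.sum_le_sum
          intro i hi
          apply Nat.size_le_size
          apply supS_le
          intro v hv
          refine (Finset.card_le_card Finset.inter_subset_left).trans ?_
          refine le_trans (Finset.card_le_card (sight_mono_radius ?_))
            (hEb F0 (Finset.Subset.refl _) hI v hv)
          exact Nat.mul_le_mul_right _ (Nat.pow_le_pow_right (by norm_num)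
            (Finset.mem_range.1 hi).le)
      _ = N' * Nat.size E := by simp
  · intro v hv
    rw [Finset.sdiff_eq_empty_iff_subset.2 sight_sub]
    simp

end Pool.Agent.TH492
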