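import Pool.Agent.TH492.Norin
import Pool.Agent.TH492.Gad2

set_option autoImplicit false
set_option linter.unusedSectionVars false

namespace Pool.Agent.TH492.Col

open Pool.Agent.TH492

/-- sorting an injective rank. -/
theorem exists_perm {n : ℕ} (h : Fin n → ℕ) (hinj : Function.Injective h) :
    ∃ σ : Equiv.Perm (Fin n), ∀ u v, σ u < σ v ↔ h u < h v := by
  classical
  have hlt : ∀ u, (Finset.univ.filter (fun w => h w < h u)).card < n := by
    intro u
    calc (Finset.univ.filter (fun w => h w < h u)).card < (Finset.univ : Finset (Fin n)).card := by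
          apply Finset.card_lt_card
          rw [Finset.filter_ssubset]
          exact ⟨u, Finset.mem_univ u, lt_irrefl _⟩
      _ = n := by simp
  have hmono : ∀ u v, h u < h v → (Finset.univ.filter (fun w => h w < h u)).card <
      (Finset.univ.filter (fun w => h w < h v)).card := by
    intro u v huv
    apply Finset.card_lt_card
    rw [Finset.ssubset_iff_of_subset]
    · exact ⟨u, by simp [huv], by simp⟩
    · intro w hw
      simp only [Finset.mem_filter, Finset.mem_univ, true_and] at hw ⊢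
      omega
  let f : Fin n → Fin n := fun u => ⟨_, hlt u⟩
  have hf : ∀ u v, f u < f v ↔ h u < h v := by
    intro u v
    constructor
    · intro huv
      by_contra hcon
      rcases (not_lt.1 hcon).lt_or_eq with h1 | h1
      · have := hmono v u h1
        simp only [f, Fin.mk_lt_mk] at huv
        omega
      · have : u = v := hinj h1.symm
        rw [this] at huv
        exact lt_irrefl _ huv
    · intro huv
      exact hmono u v huv
  have hfi : Function.Injective f := by
    intro u v huv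
    rcases lt_trichotomy (h u) (h v) with h1 | h1 | h1
    · exact absurd huv ((hf u v).2 h1).ne
    · exact hinj h1
    · exact absurd huv ((hf v u).2 h1).ne'
  exact ⟨Equiv.ofBijective f (Finite.injective_iff_bijective.1 hfi), fun u v => hf u v⟩

/-- the class: subgraphs of graphs with the structure of the gadget. -/
def Cls (n : ℕ) (G : SimpleGraph (Fin n)) : Prop :=
  ∃ (s : ℕ) (V : Type) (_ : Fintype V) (GV : SimpleGraph V) (Br : Set V) (g : V → ℕ),
    1 ≤ s ∧ Function.Injective g ∧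
    (∀ v, ∃ (C : Set V) (T : Finset V), v ∈ C ∧ (∀ x ∈ C, g v ≤ g x) ∧ (∀ y ∈ T, g y < g v) ∧
        (∀ x ∈ C, ∀ y, GV.Adj x y → y ∈ C ∨ y ∈ T) ∧ (v ∈ Br → T.card ≤ s) ∧
        (v ∉ Br → T.card ≤ 2)) ∧
    (∀ b ∈ Br, ∃ δ : V → ℕ, δ b = 0 ∧ (∀ x y, GV.Adj x y → δ y ≤ δ x + 1) ∧
        ∀ x, g x < g b → s ≤ δ x) ∧
    ∃ f : G →g GV, Function.Injective f

theorem cls_monotone : Monotone Cls := by
  intro n m G H f hf ⟨s, V, i, GV, Br, g, hs, hg, h1, h2, f', hf'⟩
  exact ⟨s, V, i, GV, Br, g, hs, hg, h1, h2, f'.comp f, hf'.comp hf⟩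

theorem lip_walk {V : Type} {G : SimpleGraph V} {δ : V → ℕ}
    (h : ∀ x y, G.Adj x y → δ y ≤ δ x + 1) {u v : V} (p : G.Walk u v) :
    δ v ≤ δ u + p.length := by
  induction p with
  | nil => simp
  | @cons a b c hab p ih =>
    have := h a b hab
    rw [SimpleGraph.Walk.length_cons]
    omega

/-- a walk starting in `C` all of whose vertices but the last are above `a` ends in `T`. -/
theorem closed_walk {V : Type} {G : SimpleGraph V} {C : Set V} {T : Finset V} {g : V → ℕ} {a : ℕ}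
    (hC : ∀ x ∈ C, a ≤ g x) (hT : ∀ y ∈ T, g y < a)
    (hCT : ∀ x ∈ C, ∀ y, G.Adj x y → y ∈ C ∨ y ∈ T) {u v : V}
    (p : G.Walk u v) (hu : u ∈ C) (hv : g v < a)
    (hw : ∀ w ∈ p.support, w ≠ v → a ≤ g w) : v ∈ T := by
  induction p with
  | nil => exact absurd (hC _ hu) (not_le.2 hv)
  | @cons x y z hxy p ih =>
    rcases hCT x hu y hxy with h | h
    · exact ih h hv (fun w hw1 hw2 => hw w (by simp [hw1]) hw2)
    · by_cases hyz : y = z
      · rw [← hyz]; exact h
      · exact absurd (hw y (by simp) hyz) (not_le.2 (hT y h))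

theorem cls_col {n : ℕ} {G : SimpleGraph (Fin n)} (hG : Cls n G) (r : ℕ) (hr : 1 ≤ r) :
    col r G ≤ 4 * r := by
  classical
  obtain ⟨s, V, i, GV, Br, g, hs, hg, h1, h2, f, hf⟩ := hG
  obtain ⟨σ, hσ⟩ := exists_perm (fun u => g (f u)) (hg.comp hf)
  apply Nat.sInf_le
  refine ⟨σ, fun u => ?_⟩
  obtain ⟨C, T, huC, hCg, hTg, hCT, hTBr, hTnBr⟩ := h1 (f u)
  have hmem : ∀ v, v ∈ Strong G σ r u →
      v = u ∨ (f v ∈ T ∧ g (f v) < g (f u) ∧ ∃ p : GV.Walk (f u) (f v), p.length ≤ r) := by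
    rintro v ⟨hvu, p, hp, hpl, hpw⟩
    rcases hvu.lt_or_eq with hlt | heq
    · right
      have hlt' : g (f v) < g (f u) := (hσ v u).1 hlt
      refine ⟨?_, hlt', p.map f, by simpa using hpl⟩
      apply closed_walk hCg hTg hCT (p.map f) huC hlt'
      intro w hw hwv
      simp only [SimpleGraph.Walk.support_map, List.mem_map] at hw
      obtain ⟨x, hx, rfl⟩ := hw
      by_cases hxu : x = u
      · rw [hxu]
      · have hxv : x ≠ v := fun h => hwv (h ▸ rfl)
        exact ((hσ u x).1 (hpw x hx hxu hxv)).le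
    · left
      exact σ.injective heq
  have hbound : (Strong G σ r u).ncard ≤ 1 + T.card := by
    have hsub : Strong G σ r u ⊆
        ((insert u (Finset.univ.filter (fun v => f v ∈ T)) : Finset (Fin n)) : Set (Fin n)) := by
      intro v hv
      rw [Finset.mem_coe, Finset.mem_insert, Finset.mem_filter]
      rcases hmem v hv with h | h
      · exact Or.inl h
      · exact Or.inr ⟨Finset.mem_univ _, h.1⟩
    refine (Set.ncard_le_ncard hsub (Finset.finite_toSet _)).trans ?_
    rw [Set.ncard_coe_finset]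
    refine (Finset.card_insert_le _ _).trans ?_
    have : (Finset.univ.filter (fun v => f v ∈ T)).card ≤ T.card := by
      apply Finset.card_le_card_of_injOn f
      · intro v hv
        simpa using hv
      · exact hf.injOn
    omega
  by_cases hBr : f u ∈ Br
  · by_cases hrs : r < s
    · obtain ⟨δ, hδ0, hδ1, hδ2⟩ := h2 (f u) hBr
      have hsub : Strong G σ r u ⊆ {u} := by
        intro v hv
        rcases hmem v hv with h | ⟨_, h3, p, hp⟩
        · exact h
        · have h4 := lip_walk hδ1 p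
          have h5 := hδ2 (f v) h3
          omega
      have := Set.ncard_le_ncard hsub (Set.finite_singleton u)
      rw [Set.ncard_singleton] at this
      omega
    · have := hTBr hBr
      omega
  · have := hTnBr hBr
    omega

theorem cls_polyCol : PolyCol Cls := by
  refine ⟨1, 4, fun r n G hr hG => ?_⟩
  rw [Real.rpow_one]
  exact_mod_cast cls_col hG r hr

theorem le_wcol {n : ℕ} {G : SimpleGraph (Fin n)} {r K : ℕ}
    (h : ∀ σ : Equiv.Perm (Fin n), ∃ u, K ≤ (Weak G σ r u).ncard) : K ≤ wcol r G := by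
  have hne : {k | ∃ σ : Equiv.Perm (Fin n), ∀ u, (Weak G σ r u).ncard ≤ k}.Nonempty := by
    refine ⟨n, 1, fun u => ?_⟩
    calc (Weak G 1 r u).ncard ≤ (Set.univ : Set (Fin n)).ncard :=
          Set.ncard_le_ncard (Set.subset_univ _) Set.finite_univ
      _ = n := by rw [Set.ncard_univ]; simp
  apply le_csInf hne
  rintro k ⟨σ, hσ⟩
  obtain ⟨u, hu⟩ := h σ
  exact hu.trans (hσ u)

theorem cls_wcol (s : ℕ) (hs : 1 ≤ s) : ∃ (n : ℕ) (G : SimpleGraph (Fin n)), Cls n G ∧
    (s + s).choose s ≤ wcol ((s + 1) * s) G := by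
  classical
  obtain ⟨V, i, GV, Br, g, hg, hD, hU1, hU2, hL⟩ := Gad.gadget s s s hs
  let e : V ≃ Fin (Fintype.card V) := Fintype.equivFin V
  let G : SimpleGraph (Fin (Fintype.card V)) := GV.comap e.symm
  let iso : G ≃g GV := SimpleGraph.Iso.comap e.symm GV
  refine ⟨Fintype.card V, G, ⟨s, V, i, GV, Br, g, hs, hg, hU1, hU2, iso.toHom,
    iso.injective⟩, ?_⟩
  apply le_wcol
  intro σ
  obtain ⟨u, _, hu⟩ := hL (fun v => (σ (e v)).val)
    (fun a b hab => e.injective (σ.injective (Fin.ext hab)))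
  refine ⟨e u, hu.trans ?_⟩
  apply Set.ncard_le_ncard_of_injOn e _ e.injective.injOn (Set.toFinite _)
  rintro w ⟨p, hp, hpw⟩
  let q : G.Walk (iso.symm u) (iso.symm w) := p.map iso.symm.toHom
  have hq : q.length ≤ (s + 1) * s := by
    simpa [q] using hp
  have hqs : ∀ x ∈ q.support, σ (e w) ≤ σ x := by
    intro x hx
    simp only [q, SimpleGraph.Walk.support_map, List.mem_map] at hx
    obtain ⟨y, hy, rfl⟩ := hx
    exact hpw y hy
  exact ⟨q.bypass, q.bypass_isPath, (q.length_bypass_le_length).trans hq,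
    fun x hx => hqs x (q.support_bypass_subset_support hx)⟩

theorem two_pow_le_choose (s : ℕ) : 2 ^ s ≤ (s + s).choose s := by
  have h := Nat.four_pow_le_two_mul_self_mul_centralBinom
  induction s with
  | zero => simp
  | succ s ih =>
    have h1 := Nat.succ_mul_centralBinom_succ s
    unfold Nat.centralBinom at h1
    have h2 : s + 1 + (s + 1) = 2 * (s + 1) := by ring
    have h3 : s + s = 2 * s := by ring
    rw [h2]
    rw [h3] at ih
    have h4 : (s + 1) * (2 * 2 ^ s) ≤ (s + 1) * (2 * (s + 1)).choose (s + 1) := by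
      rw [h1]
      calc (s + 1) * (2 * 2 ^ s) = (2 * (s + 1)) * 2 ^ s := by ring
        _ ≤ (2 * (2 * s + 1)) * 2 ^ s := by gcongr; omega
        _ ≤ (2 * (2 * s + 1)) * (2 * s).choose s := by gcongr
    have h5 := Nat.le_of_mul_le_mul_left h4 (by omega)
    calc 2 ^ (s + 1) = 2 * 2 ^ s := by ring
      _ ≤ _ := h5

theorem cls_not_polyWcol : ¬ PolyWcol Cls := by
  rintro ⟨c, K, h⟩
  obtain ⟨a, k, hak⟩ := rpow_bound c K
  -- 2^s ≤ a (2 s^2)^k for all s ≥ 1
  have h1 : ∀ s : ℕ, 1 ≤ s → (2 : ℝ) ^ s ≤ a * ((((s + 1) * s : ℕ) : ℝ)) ^ k := by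
    intro s hs
    obtain ⟨n, G, hG, hw⟩ := cls_wcol s hs
    have hpos : 1 ≤ (s + 1) * s := Nat.one_le_iff_ne_zero.mpr (by positivity)
    have h2 := (h ((s + 1) * s) n G hpos hG).trans (hak _ hpos)
    have h3 : ((2 ^ s : ℕ) : ℝ) ≤ (wcol ((s + 1) * s) G : ℝ) := by
      exact_mod_cast (two_pow_le_choose s).trans hw
    push_cast at h3 h2 ⊢
    exact h3.trans h2
  have h2 : ∀ s : ℕ, 1 ≤ s → (2 : ℝ) ^ s ≤ (a * 2 ^ k) * (s : ℝ) ^ (2 * k) := by
    intro s hs
    have hs1 : (1 : ℝ) ≤ s := by exact_mod_cast hs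
    refine (h1 s hs).trans ?_
    have h3 : (((s + 1) * s : ℕ) : ℝ) ≤ 2 * (s : ℝ) ^ 2 := by
      push_cast; nlinarith
    calc (a : ℝ) * (((s + 1) * s : ℕ) : ℝ) ^ k ≤ a * (2 * (s : ℝ) ^ 2) ^ k := by gcongr
      _ = (a * 2 ^ k) * (s : ℝ) ^ (2 * k) := by rw [mul_pow, ← pow_mul]; ring
  have h3 : Filter.Tendsto (fun s : ℕ => (s : ℝ) ^ (2 * k) / (2 : ℝ) ^ s) Filter.atTop
      (nhds 0) := tendsto_pow_const_div_const_pow_of_one_lt (2 * k) (by norm_num)
  have hA : (0 : ℝ) < a * 2 ^ k + 1 := by positivity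
  have h4 := (h3.eventually (gt_mem_nhds (show (0 : ℝ) < 1 / (a * 2 ^ k + 1) by positivity))).and
    (Filter.eventually_ge_atTop 1)
  obtain ⟨s, hs1, hs2⟩ := h4.exists
  have h5 := h2 s hs2
  rw [div_lt_div_iff₀ (by positivity) hA, one_mul] at hs1
  have h6 : (0 : ℝ) ≤ (s : ℝ) ^ (2 * k) := by positivity
  nlinarith

theorem separation : ∃ C : (n : ℕ) → SimpleGraph (Fin n) → Prop,
    Monotone C ∧ PolyExpansion C ∧ PolyCol C ∧ ¬ PolyWcol C :=
  ⟨Cls, cls_monotone, polyExp_of_polyCol cls_polyCol, cls_polyCol, cls_not_polyWcol⟩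

end Pool.Agent.TH492.Col
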