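import Pool.Agent.TH492.Sub

set_option autoImplicit false
set_option linter.unusedSectionVars false

namespace Pool.Agent.TH492

open Finset

universe u
variable {V : Type u} [Fintype V] [DecidableEq V]

theorem Lk_congr {L0 : Finset V} {T T' : ℕ → Finset V} {k : ℕ} (h : ∀ i < k, T i = T' i) :
    Lk L0 T k = Lk L0 T' k := by
  unfold Lk
  congr 1
  apply Finset.biUnion_congr rfl
  intro i hi
  exact h i (Finset.mem_range.1 hi)

theorem Lk_succ (L0 : Finset V) (T : ℕ → Finset V) (k : ℕ) :
    Lk L0 T (k + 1) = Lk L0 T k ∪ T k := by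
  unfold Lk
  rw [Finset.range_add_one, Finset.biUnion_insert]
  ext x
  simp only [Finset.mem_union, Finset.mem_biUnion]
  constructor
  · rintro (h | h | h)
    · exact Or.inl (Or.inl h)
    · exact Or.inr h
    · exact Or.inl (Or.inr h)
  · rintro ((h | h) | h)
    · exact Or.inl h
    · exact Or.inr (Or.inr h)
    · exact Or.inr (Or.inl h)

theorem Lk_zero (L0 : Finset V) (T : ℕ → Finset V) : Lk L0 T 0 = L0 := by
  simp [Lk]

theorem sub_Lk (L0 : Finset V) (T : ℕ → Finset V) (k : ℕ) : L0 ⊆ Lk L0 T k :=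
  Finset.subset_union_left

theorem Occ_insert (Y : Finset V) (F : Finset (Finset V)) (T : Finset V) :
    Occ Y (insert T F) = Occ Y F ∪ T := by
  unfold Occ
  rw [Finset.biUnion_insert]
  ext x
  simp only [Finset.mem_union, id]
  tauto

theorem Occ_mono {Y : Finset V} {F F' : Finset (Finset V)} (h : F ⊆ F') : Occ Y F ⊆ Occ Y F' :=
  Finset.union_subset_union_right (Finset.biUnion_subset_biUnion_of_subset_left _ h)

theorem sight_sub {G : SimpleGraph V} {L : Finset V} {k : ℕ} {v : V} : Sight G L k v ⊆ L := by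
  intro x hx
  exact (mem_sight.1 hx).1

theorem sight_inter_mono {G : SimpleGraph V} {L L' S : Finset V} {j k : ℕ} {v : V} (hL : L ⊆ L')
    (hS : S ⊆ L) (hk : k ≤ j) : Sight G L' k v ∩ S ⊆ Sight G L j v ∩ S := by
  intro x hx
  rw [Finset.mem_inter] at hx ⊢
  exact ⟨mem_sight.2 ((mem_sight.1 hx.1).mono hL (hS hx.2) hk), hx.2⟩

/-- insert the elements of `A' \ A` one by one. -/
theorem gchain_of_between {Good : Finset V → Prop} {A A' : Finset V} (hA : A ⊆ A')
    (h : ∀ C, A ⊆ C → C ⊆ A' → Good C) : GChain Good A A' := by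
  obtain ⟨N, hN⟩ : ∃ N, (A' \ A).card = N := ⟨_, rfl⟩
  induction N generalizing A with
  | zero =>
    rw [Finset.card_eq_zero, Finset.sdiff_eq_empty_iff_subset] at hN
    rw [Finset.Subset.antisymm hA hN]
    exact Relation.ReflTransGen.refl
  | succ N ih =>
    have hne : (A' \ A).Nonempty := by
      rw [← Finset.card_pos]; omega
    obtain ⟨x, hx⟩ := hne
    rw [Finset.mem_sdiff] at hx
    have h1 : insert x A ⊆ A' := Finset.insert_subset hx.1 hA
    have h2 : GChain Good (insert x A) A' := by
      apply ih h1 (fun C hC hC' => h C ((Finset.subset_insert x A).trans hC) hC')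
      have : A' \ A = insert x (A' \ insert x A) := by
        ext y
        simp only [Finset.mem_sdiff, Finset.mem_insert]
        constructor
        · rintro ⟨h3, h4⟩
          by_cases hyx : y = x
          · left; exact hyx
          · right; exact ⟨h3, by tauto⟩
        · rintro (rfl | ⟨h3, h4⟩)
          · exact hx
          · exact ⟨h3, by tauto⟩
      have h5 : (A' \ A).card = (A' \ insert x A).card + 1 := by
        rw [this, Finset.card_insert_of_notMem]
        simp
      omega
    exact Relation.ReflTransGen.head ⟨x, hx.2, rfl, h _ (Finset.subset_insert x A) h1⟩ h2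

theorem GChain.trans {Good : Finset V → Prop} {A A' A'' : Finset V} (h : GChain Good A A')
    (h' : GChain Good A' A'') : GChain Good A A'' :=
  Relation.ReflTransGen.trans h h'

/-- number of new vertices seen. -/
theorem new_sight {G : SimpleGraph V} {r p B ρ s D D' t : ℕ} (hd : Dens G r p) (hρ : 1 ≤ ρ)
    (hρr : ρ ≤ r) (hD : 1 ≤ D) (hD' : 8 * D * (2 * p + 2) ≤ D')
    (hs : 2 * D' * (2 * p + 2) ^ 2 ≤ s) {S L0 : Finset V} (hS : S ⊆ L0)
    (h1 : ∀ x, x ∉ L0 → (Sight G L0 ρ x ∩ S).card ≤ s)
    (h2 : ∀ x, x ∉ L0 → (Sight G L0 (5 * ρ) x ∩ S).card ≤ D * s)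
    {v : ℕ → V} {T : ℕ → Finset V} (h : FixSeq G S L0 ρ s D' t v T) (hT : ∀ k < t, (T k).card ≤ B)
    (x : V) (hx : x ∉ Lk L0 T t) :
    (Sight G (Lk L0 T t) ρ x \ L0).card ≤ 4 * D * (2 * p + 2) * B := by
  classical
  have h3 := packing hd hρ hρr hD hD' hs hS h1 h2 h x hx
  have h4 : Sight G (Lk L0 T t) ρ x \ L0 ⊆
      ((range t).filter (fun k => (Sight G (Lk L0 T t) ρ x ∩ T k).Nonempty)).biUnion T := by
    intro y hy
    rw [Finset.mem_sdiff] at hy
    have hy1 := sight_sub hy.1
    unfold Lk at hy1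
    rw [Finset.mem_union, Finset.mem_biUnion] at hy1
    rcases hy1 with hy1 | ⟨k, hk, hyk⟩
    · exact absurd hy1 hy.2
    · rw [Finset.mem_biUnion]
      refine ⟨k, ?_, hyk⟩
      rw [Finset.mem_filter]
      exact ⟨hk, ⟨y, Finset.mem_inter.2 ⟨hy.1, hyk⟩⟩⟩
  calc (Sight G (Lk L0 T t) ρ x \ L0).card
      ≤ (((range t).filter
          (fun k => (Sight G (Lk L0 T t) ρ x ∩ T k).Nonempty)).biUnion T).card :=
        Finset.card_le_card h4
    _ ≤ ((range t).filter (fun k => (Sight G (Lk L0 T t) ρ x ∩ T k).Nonempty)).card * B := by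
        apply Finset.card_biUnion_le_card_mul
        intro k hk
        rw [Finset.mem_filter, Finset.mem_range] at hk
        exact hT k hk.1
    _ ≤ 4 * D * (2 * p + 2) * B := Nat.mul_le_mul_right _ h3.le

theorem stage {G : SimpleGraph V} {r p D D' n K m B ρ s : ℕ} (hd : Dens G r p) (hρ : 1 ≤ ρ)
    (hρr : 3 * ρ ≤ r) (hD : 1 ≤ D) (hD' : D' = 8 * D * (2 * p + 2))
    (hn : n = D' ^ 2 * (4 * p + 6)) (hK : 2048 * D' ^ 4 * n ^ 5 * ρ ^ 2 ≤ K)
    (hB : 1 + K * (3 * ρ + 1) + m * ρ ≤ B) (hs1 : 2 * (512 * D' ^ 4 * n ^ 4) ≤ s)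
    (hs2 : 2 * (m * B) ≤ s) (hs3 : 2 * D' * (2 * p + 2) ^ 2 ≤ s)
    {Y : Finset V} {F : Finset (Finset V)} (hI : Inv G r B m Y F) {S : Finset V}
    (hS : S ⊆ Occ Y F)
    (h1 : ∀ v, v ∉ Occ Y F → (Sight G (Occ Y F) ρ v ∩ S).card ≤ s)
    (h2 : ∀ v, v ∉ Occ Y F → (Sight G (Occ Y F) (5 * ρ) v ∩ S).card ≤ D * s)
    (Good : Finset V → Prop)
    (hGood : ∀ F1, F ⊆ F1 → Inv G r B m Y F1 →
      (∀ v, v ∉ Occ Y F1 → (Sight G (Occ Y F1) ρ v \ Occ Y F).card ≤ 4 * D * (2 * p + 2) * B) →
      ∀ A, Occ Y F1 ⊆ A → A.card ≤ (Occ Y F1).card + B → Good A) :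
    ∃ F', F ⊆ F' ∧ Inv G r B m Y F' ∧ GChain Good (Occ Y F) (Occ Y F') ∧
      (∀ v, v ∉ Occ Y F' → 2 * (Sight G (Occ Y F') ρ v ∩ S).card ≤ s) ∧
      (∀ v, v ∉ Occ Y F' → (Sight G (Occ Y F') ρ v \ Occ Y F).card ≤ 4 * D * (2 * p + 2) * B) := by
  classical
  by_contra hcon
  have hD'1 : 1 ≤ D' := by
    rw [hD']
    exact Nat.one_le_iff_ne_zero.mpr (by positivity)
  have hρr' : ρ ≤ r := by omega
  have key : ∀ t : ℕ, ∃ (v : ℕ → V) (T : ℕ → Finset V) (F1 : Finset (Finset V)),
      FixSeq G S (Occ Y F) ρ s D' t v T ∧ (∀ k < t, (T k).card ≤ B) ∧ F ⊆ F1 ∧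
      Inv G r B m Y F1 ∧ Occ Y F1 = Lk (Occ Y F) T t ∧ GChain Good (Occ Y F) (Occ Y F1) ∧
      (Occ Y F).card + t ≤ (Occ Y F1).card := by
    intro t
    induction t with
    | zero =>
      obtain ⟨v0⟩ : Nonempty V := by
        by_contra hV
        rw [not_nonempty_iff] at hV
        apply hcon
        refine ⟨F, Finset.Subset.refl _, hI, Relation.ReflTransGen.refl, ?_, ?_⟩
        · intro v; exact (hV.false v).elim
        · intro v; exact (hV.false v).elim
      refine ⟨fun _ => v0, fun _ => ∅, F, ?_, ?_, Finset.Subset.refl _, hI, ?_,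
        Relation.ReflTransGen.refl, by simp⟩
      · constructor <;> intro k hk <;> omega
      · intro k hk; omega
      · rw [Lk_zero]
    | succ t ih =>
      obtain ⟨v, T, F1, hseq, hTB, hF1, hI1, hocc, hch, hcard⟩ := ih
      have hnew : ∀ x, x ∉ Occ Y F1 →
          (Sight G (Occ Y F1) ρ x \ Occ Y F).card ≤ 4 * D * (2 * p + 2) * B := by
        intro x hx
        rw [hocc] at hx ⊢
        exact new_sight hd hρ hρr' hD hD'.ge hs3 hS h1 h2 hseq hTB x hx
      -- a vertex seeing too much
      have hex : ∃ u, u ∉ Occ Y F1 ∧ s < 2 * (Sight G (Occ Y F1) ρ u ∩ S).card := by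
        by_contra hno
        push Not at hno
        exact hcon ⟨F1, hF1, hI1, hch, hno, hnew⟩
      obtain ⟨u, hu, hus⟩ := hex
      set L := Occ Y F1 with hLdef
      set W := Sight G L ρ u ∩ S with hWdef
      have hWL : W ⊆ L := Finset.inter_subset_left.trans sight_sub
      have hSL : S ⊆ L := hS.trans (Occ_mono hF1)
      let C : Finset V := univ.filter (fun c => Rch G L (2 * ρ) u c)
      have hC : Disjoint C L := by
        rw [Finset.disjoint_left]
        intro c hc hcL
        exact (Finset.mem_filter.1 hc).2.right hcL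
      obtain ⟨X, hX1, hX2, hX3⟩ := separator (K := 2048 * D' ^ 4 * n ^ 5 * ρ ^ 2) hd hρr' hρ hD'1
        hn rfl L W C hWL hC (by omega)
      have hXr : ∀ x ∈ X, Rch G L (3 * ρ) u x := by
        intro x hx
        obtain ⟨c, hc, hcx⟩ := hX2 x hx
        have := (Finset.mem_filter.1 hc).2.trans hcx
        exact this.mono (Finset.Subset.refl _) (by omega)
      obtain ⟨U, huU, hXU, hUL, hUr, hUF, hUB, hIU⟩ := build_fix hI1 hρ hρr hB hu
        (W := W) (X := X) Finset.inter_subset_left (by omega) (hX1.trans hK) hXr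
      have hagT : ∀ i < t, Function.update T t U i = T i := by
        intro i hi; exact Function.update_of_ne (by omega) _ _
      have hagv : ∀ i < t, Function.update v t u i = v i := by
        intro i hi; exact Function.update_of_ne (by omega) _ _
      have hLkle : ∀ k ≤ t, Lk (Occ Y F) (Function.update T t U) k = Lk (Occ Y F) T k := by
        intro k hk
        apply Lk_congr
        intro i hi
        exact hagT i (by omega)
      have hLt : Lk (Occ Y F) (Function.update T t U) t = L := by
        rw [hLkle t le_rfl, hocc]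
      have hLt1 : Lk (Occ Y F) (Function.update T t U) (t + 1) = L ∪ U := by
        rw [Lk_succ, hLt, Function.update_self]
      refine ⟨Function.update v t u, Function.update T t U, insert U F1, ?_, ?_, ?_, hIU, ?_, ?_,
        ?_⟩
      · constructor
        · intro k hk
          rcases Nat.lt_succ_iff_lt_or_eq.1 hk with hk | rfl
          · rw [hLkle k hk.le, hagv k hk]; exact hseq.start k hk
          · rw [hLt, Function.update_self]; exact hu
        · intro k hk
          rcases Nat.lt_succ_iff_lt_or_eq.1 hk with hk | rfl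
          · rw [hLkle k hk.le, hagv k hk]; exact hseq.big k hk
          · rw [hLt, Function.update_self]; exact hus
        · intro k hk
          rcases Nat.lt_succ_iff_lt_or_eq.1 hk with hk | rfl
          · rw [hLkle k hk.le, hagT k hk]; exact hseq.dis k hk
          · rw [hLt, Function.update_self]; exact hUL
        · intro k hk
          rcases Nat.lt_succ_iff_lt_or_eq.1 hk with hk | rfl
          · rw [hLkle k hk.le, hagT k hk, hagv k hk]; exact hseq.reg k hk
          · rw [hLt, Function.update_self, Function.update_self]; exact hUr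
        · intro k hk
          rcases Nat.lt_succ_iff_lt_or_eq.1 hk with hk | rfl
          · rw [hLkle k hk.le, hagv k hk, hLkle (k + 1) (by omega)]; exact hseq.prot k hk
          · rw [hLt, Function.update_self, hLt1]
            intro c hc hcn
            have hcC : c ∈ C := Finset.mem_filter.2 ⟨Finset.mem_univ _, hc⟩
            have hcX : c ∉ X := fun h => hcn (Finset.mem_union_right _ (hXU h))
            refine lt_of_le_of_lt (Nat.mul_le_mul_left _ (Finset.card_le_card ?_))
              (hX3 c hcC hcX)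
            exact sight_inter_mono (Finset.union_subset_union_right hXU)
              (hWL.trans Finset.subset_union_left) le_rfl
      · intro k hk
        rcases Nat.lt_succ_iff_lt_or_eq.1 hk with hk | rfl
        · rw [hagT k hk]; exact hTB k hk
        · rw [Function.update_self]; exact hUB
      · exact hF1.trans (Finset.subset_insert _ _)
      · rw [hLt1, Occ_insert]
      · refine GChain.trans hch ?_
        apply gchain_of_between (Occ_mono (Finset.subset_insert _ _))
        intro A hA1 hA2
        apply hGood F1 hF1 hI1 hnew A hA1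
        calc A.card ≤ (Occ Y (insert U F1)).card := Finset.card_le_card hA2
          _ = (L ∪ U).card := by rw [Occ_insert]
          _ ≤ L.card + U.card := Finset.card_union_le _ _
          _ ≤ L.card + B := by omega
      · rw [Occ_insert]
        have : (L ∪ U).card = L.card + U.card := Finset.card_union_of_disjoint hUL.symm
        have hU1 : 1 ≤ U.card := Finset.card_pos.2 ⟨u, huU⟩
        rw [← hLdef, this]
        omega
  obtain ⟨v, T, F1, _, _, _, _, _, _, hc⟩ := key (Fintype.card V + 1)
  have := Finset.card_le_univ (Occ Y F1)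
  omega

end Pool.Agent.TH492
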