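import Pool.Agent.TH480.J341
import Pool.Agent.TH480.J342
import Pool.Agent.TH480.J346
import Pool.Agent.TH558.J344
import Pool.Agent.TH58.J345
import Pool.Agent.TH554.J343

set_option autoImplicit false
set_option linter.unusedSectionVars false

namespace Pool.Agent.TH492

open Finset

universe u
variable {V : Type u} [Fintype V] [DecidableEq V]

theorem separator {G : SimpleGraph V} {r p R D n K : ℕ} (hd : Dens G r p) (hRr : R ≤ r)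
    (hR : 1 ≤ R) (hD : 1 ≤ D) (hn : n = D ^ 2 * (4 * p + 6))
    (hK : K = 2048 * D ^ 4 * n ^ 5 * R ^ 2) (L W C : Finset V) (hWL : W ⊆ L)
    (hC : Disjoint C L) (hW : 512 * D ^ 4 * n ^ 4 ≤ W.card) :
    ∃ X : Finset V, X.card ≤ K ∧ (∀ x ∈ X, ∃ c ∈ C, Rch G L R c x) ∧
      ∀ c ∈ C, c ∉ X → D * (Sight G (L ∪ X) R c ∩ W).card < W.card := by
  by_contra hcon
  push Not at hcon
  have hn1 : 0 < n := by rw [hn]; positivity
  have hW0 : 0 < W.card := lt_of_lt_of_le (by positivity) hW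
  obtain ⟨c, A, P, h1, h2, h3⟩ := Pool.Agent.TH480.J342.greedy_stars (G := G) (n := n) (K := K)
    hR hD (by
      rw [hK]
      calc n * R * D ≤ (n ^ 5) * (R ^ 2) * (D ^ 4) := by
            gcongr
            · exact Nat.le_self_pow (by norm_num) n
            · exact Nat.le_self_pow (by norm_num) R
            · exact Nat.le_self_pow (by norm_num) D
        _ ≤ 2048 * D ^ 4 * n ^ 5 * R ^ 2 := by nlinarith [Nat.zero_le (n ^ 5 * R ^ 2 * D ^ 4)])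
    L W C hC hW0 (by
      intro X hX1 hX2
      obtain ⟨c, hc, hcX, h⟩ := hcon X hX1 hX2
      exact ⟨c, hc, hcX, h⟩)
  exact Pool.Agent.TH554.J343.stars_false hd hRr hR hD hn hK L W hWL hW c A P
    (fun i => ⟨⟨(h1 i).1.sub, (h1 i).1.path⟩, (h1 i).2⟩) h2 h3

open Classical in
/-- L2 -/
theorem state_bound {G : SimpleGraph V} {r p B m c κ Q Z : ℕ} (hd : Dens G r p) (hp : 1 ≤ p)
    (hm : 4 * p * κ ^ c ≤ m) (hκ : ∀ ρ, Q ≤ ρ → ρ + (2 * r + 1) ≤ κ * ρ)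
    {Y : Finset V} {F : Finset (Finset V)} (hI : Inv G r B m Y F) {v : V} (hv : v ∉ Y)
    (hY : ∀ ρ, Q ≤ ρ → (Sight G Y ρ v).card * Z ≤ ρ ^ c) :
    ∀ ρ, Q ≤ ρ → (F.filter (fun T => ∃ x ∈ T, Rch G Y ρ v x)).card * Z ≤ 4 * κ ^ c * ρ ^ c :=
  Pool.Agent.TH558.J344.state_bound hd hp hm hκ hI hv hY

theorem sight_occ_bound {G : SimpleGraph V} {r p B m c κ Q Z : ℕ} (hd : Dens G r p) (hp : 1 ≤ p)
    (hm : 4 * p * κ ^ c ≤ m) (hκ : ∀ ρ, Q ≤ ρ → ρ + (2 * r + 1) ≤ κ * ρ)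
    {Y : Finset V} {F : Finset (Finset V)} (hI : Inv G r B m Y F) {v : V} (hv : v ∉ Occ Y F)
    (hY : ∀ ρ, Q ≤ ρ → (Sight G Y ρ v).card * Z ≤ ρ ^ c) :
    ∀ ρ, Q ≤ ρ → (Sight G (Occ Y F) ρ v).card * Z ≤ (1 + B * (4 * κ ^ c)) * ρ ^ c :=
  Pool.Agent.TH558.J344.sight_occ_bound hd hp hm hκ hI hv hY

open Classical in
/-- L3 -/
theorem packing {G : SimpleGraph V} {r p ρ s D D' t : ℕ} (hd : Dens G r p) (hρ : 1 ≤ ρ)
    (hρr : ρ ≤ r) (hD : 1 ≤ D) (hD' : 8 * D * (2 * p + 2) ≤ D')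
    (hs : 2 * D' * (2 * p + 2) ^ 2 ≤ s) {S L0 : Finset V} (hS : S ⊆ L0)
    (h1 : ∀ x, x ∉ L0 → (Sight G L0 ρ x ∩ S).card ≤ s)
    (h2 : ∀ x, x ∉ L0 → (Sight G L0 (5 * ρ) x ∩ S).card ≤ D * s)
    {v : ℕ → V} {T : ℕ → Finset V} (h : FixSeq G S L0 ρ s D' t v T) (x : V)
    (hx : x ∉ Lk L0 T t) :
    ((range t).filter (fun k => (Sight G (Lk L0 T t) ρ x ∩ T k).Nonempty)).card <
      4 * D * (2 * p + 2) :=
  Pool.Agent.TH58.J345.packing hd hρ hρr hD hD' hs hS h1 h2 h x hx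

/-- L4 -/
theorem build_fix {G : SimpleGraph V} {r B m K ρ : ℕ} {Y : Finset V} {F : Finset (Finset V)}
    (hI : Inv G r B m Y F) (hρ : 1 ≤ ρ) (h3 : 3 * ρ ≤ r) (hB : 1 + K * (3 * ρ + 1) + m * ρ ≤ B)
    {v : V} (hv : v ∉ Occ Y F) {W X : Finset V} (hW : W ⊆ Sight G (Occ Y F) ρ v)
    (hWc : m * B ≤ W.card) (hX : X.card ≤ K) (hXr : ∀ x ∈ X, Rch G (Occ Y F) (3 * ρ) v x) :
    ∃ T : Finset V, v ∈ T ∧ X ⊆ T ∧ Disjoint T (Occ Y F) ∧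
      (∀ x ∈ T, Rch G (Occ Y F) (3 * ρ) v x) ∧ T ∉ F ∧ T.card ≤ B ∧
        Inv G r B m Y (insert T F) :=
  Pool.Agent.TH480.J346.build_fix hI hρ h3 hB hv hW hWc hX hXr

end Pool.Agent.TH492
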